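import Pool.Agent.H64.OC.FinD

/-!
# OC, the final contradiction
-/

set_option autoImplicit false

namespace Pool.OC.FN

open Finset Real
open Pool.Agent.H49.Ent Pool.Agent.H32.Dense Pool.STK Pool.KAF Pool.OC

/-- The good pairs. -/
def Gd (d : Dat) (J : d.Om → Set ℕ) (m : d.Lam → ℤ) (n h a k₅ : ℕ) (u : ℝ) (Λ : d.Om → ℝ)
    (B : ℕ → Set (d.Om × d.Om)) : Set (d.Om × d.Om) :=
  {w | ((w.1 ∉ Gb d J h u ∧ w.2 ∉ Gb d J h u) ∧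
    (Bs d B n w.1 ≤ u * n / 8 ∧ Bs d B n w.2 ≤ u * n / 8)) ∧
    (2 : ℝ) ^ (-((n / 4 : ℕ) : ℤ)) ≤ |d.ta w| ∧
    |d.sg w| ≤ (2 : ℝ) ^ ((a : ℤ) + 4 - m (d.L w.1)) * |d.ta w| ∧
    |d.sg w - Λ w.1 * d.ta w| ≤ (2 : ℝ) ^ (-(m (d.L w.1) + (k₅ : ℤ))) * |d.ta w| ∧
    |d.sg w - Λ w.2 * d.ta w| ≤ (2 : ℝ) ^ (-(m (d.L w.1) + (k₅ : ℤ))) * |d.ta w| ∧
    (2 : ℝ) ^ (-m (d.L w.1) - 2) ≤ |Λ w.1|}

theorem Gd_compl {d : Dat} (hP : IsLaw d.P) {J : d.Om → Set ℕ} {m : d.Lam → ℤ}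
    {n h a k₅ k' : ℕ} {u ε : ℝ} {Λ : d.Om → ℝ} (hu : 0 < u) (hε : 0 ≤ ε) (hn : 64 ≤ n)
    (hnX : n ≤ d.X) (hJ : J1 d J h u ε) (hN : NLC d m n a ε) (hTA : TA d n ε) (hTB : TB d n k' ε)
    (hA : AGR d m n k₅ Λ ε)
    (hΛ : Pr d.P {ω | |Λ ω| < (2 : ℝ) ^ (-m (d.L ω) - 2)} ≤ ε) :
    Pr (d.Qp 0) (Gd d J m n h a k₅ u Λ (Bd d m n a k₅ k' Λ))ᶜ ≤ 7 * ε + 48 * ε / u := by
  classical
  set B := Bd d m n a k₅ k' Λ with hB
  have hQ0 : ∀ w, 0 ≤ d.Qp 0 w := fun w => dbl_nonneg hP.nonneg w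
  have hn0 : (0 : ℝ) < n := by exact_mod_cast (by omega : 0 < n)
  have hfst : ∀ E : Set d.Om, Pr (d.Qp 0) {w | w.1 ∈ E} = Pr d.P E := fun E =>
    (dbl_fst hP.nonneg).law (fun ω => ω ∈ E) True
  have hsnd : ∀ E : Set d.Om, Pr (d.Qp 0) {w | w.2 ∈ E} = Pr d.P E := fun E =>
    (dbl_snd hP.nonneg).law (fun ω => ω ∈ E) True
  have hswap : ∀ E : Set (d.Om × d.Om), Pr (d.Qp 0) {w | (w.2, w.1) ∈ E} = Pr (d.Qp 0) E :=
    fun E => (dbl_symm d.P (fun ω => (d.L ω, d.Ti 0 ω))).law (fun w => w ∈ E) True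
  set M1 : Set d.Om := {ω | u * n / 8 < Bs d B n ω} with hM1
  have hM : Pr d.P M1 ≤ 24 * ε / u := by
    have h1 := markov hP.nonneg (Bs d B n) (Bs_nonneg hP B n) (t := u * n / 8) (by positivity)
    refine h1.trans ?_
    have h2 := Bs_le hP hε (by omega) hnX hN hA hTB
    rw [div_le_div_iff₀ (by positivity) hu]
    have h3 := mul_le_mul_of_nonneg_right h2 hu.le
    have h4 : 24 * ε * (u * n / 8) = 3 * ε * n * u := by ring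
    rw [h4]
    exact h3
  set S5 : Set (d.Om × d.Om) := {w | |d.ta w| < (2 : ℝ) ^ (-((n / 4 : ℕ) : ℤ))} with hS5
  have h5 : Pr (d.Qp 0) S5 ≤ ε := hTA 0 (n / 4) (by omega) (by omega)
  set S6 : Set (d.Om × d.Om) := {w | (2 : ℝ) ^ (-(4 * n : ℤ)) ≤ |d.ta w| ∧
    (2 : ℝ) ^ ((a : ℤ) + 4 - m (d.L w.1)) * |d.ta w| < |d.sg w|} with hS6
  have h6 : Pr (d.Qp 0) S6 ≤ ε := hN 0 (by omega)
  set S7 : Set (d.Om × d.Om) := {w | (2 : ℝ) ^ (-(m (d.L w.1) + (k₅ : ℤ))) * |d.ta w| <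
    |d.sg w - Λ w.1 * d.ta w|} with hS7
  have h7 : Pr (d.Qp 0) S7 ≤ ε := hA 0 (by omega)
  have h8 : Pr (d.Qp 0) {w | (w.2, w.1) ∈ S7} ≤ ε := by
    rw [hswap]
    exact h7
  set S9 : Set d.Om := {ω | |Λ ω| < (2 : ℝ) ^ (-m (d.L ω) - 2)} with hS9
  have h9 : Pr (d.Qp 0) {w | w.1 ∈ S9} ≤ ε := by
    rw [hfst]
    exact hΛ
  have h1 : Pr (d.Qp 0) {w | w.1 ∈ Gb d J h u} ≤ ε := by
    rw [hfst]
    exact hJ
  have h2 : Pr (d.Qp 0) {w | w.2 ∈ Gb d J h u} ≤ ε := by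
    rw [hsnd]
    exact hJ
  have h3 : Pr (d.Qp 0) {w | w.1 ∈ M1} ≤ 24 * ε / u := by
    rw [hfst]
    exact hM
  have h4 : Pr (d.Qp 0) {w | w.2 ∈ M1} ≤ 24 * ε / u := by
    rw [hsnd]
    exact hM
  have hU : Pr (d.Qp 0) (Gd d J m n h a k₅ u Λ B)ᶜ ≤ Pr (d.Qp 0)
      ({w | w.1 ∈ Gb d J h u} ∪ ({w | w.2 ∈ Gb d J h u} ∪ ({w | w.1 ∈ M1} ∪ ({w | w.2 ∈ M1} ∪
        (S5 ∪ (S6 ∪ (S7 ∪ ({w | (w.2, w.1) ∈ S7} ∪ {w | w.1 ∈ S9})))))))) := by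
    refine Pr_mono hQ0 fun w hw hG => ?_
    by_contra hcon
    simp only [Set.mem_union, not_or] at hcon
    obtain ⟨c1, c2, c3, c4, c5, c6, c7, c8, c9⟩ := hcon
    apply hG
    have hL : d.L w.1 = d.L w.2 := (Qp_pos hP hw).2.2.1
    have d5 : (2 : ℝ) ^ (-((n / 4 : ℕ) : ℤ)) ≤ |d.ta w| := not_lt.1 c5
    refine ⟨⟨⟨c1, c2⟩, not_lt.1 c3, not_lt.1 c4⟩, d5, ?_, not_lt.1 c7, ?_, not_lt.1 c9⟩
    · by_contra hc
      apply c6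
      refine ⟨le_trans (zpow_le_zpow_right₀ (by norm_num) ?_) d5, not_le.1 hc⟩
      omega
    · have h10 : ¬ ((2 : ℝ) ^ (-(m (d.L w.2) + (k₅ : ℤ))) * |d.ta (w.2, w.1)| <
        |d.sg (w.2, w.1) - Λ w.2 * d.ta (w.2, w.1)|) := c8
      have h11 := not_lt.1 h10
      have h12 : d.ta (w.2, w.1) = -d.ta w := by
        unfold Dat.ta
        ring
      have h13 : d.sg (w.2, w.1) = -d.sg w := by
        unfold Dat.sg
        ring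
      rw [h12, h13, abs_neg, ← hL] at h11
      have h14 : -d.sg w - Λ w.2 * -d.ta w = -(d.sg w - Λ w.2 * d.ta w) := by ring
      rw [h14, abs_neg] at h11
      exact h11
  refine hU.trans ?_
  have b1 := Pr_union_le hQ0 {w | w.1 ∈ Gb d J h u} ({w | w.2 ∈ Gb d J h u} ∪
    ({w | w.1 ∈ M1} ∪ ({w | w.2 ∈ M1} ∪
      (S5 ∪ (S6 ∪ (S7 ∪ ({w | (w.2, w.1) ∈ S7} ∪ {w | w.1 ∈ S9})))))))
  have b2 := Pr_union_le hQ0 {w | w.2 ∈ Gb d J h u} ({w | w.1 ∈ M1} ∪ ({w | w.2 ∈ M1} ∪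
      (S5 ∪ (S6 ∪ (S7 ∪ ({w | (w.2, w.1) ∈ S7} ∪ {w | w.1 ∈ S9}))))))
  have b3 := Pr_union_le hQ0 {w | w.1 ∈ M1} ({w | w.2 ∈ M1} ∪
      (S5 ∪ (S6 ∪ (S7 ∪ ({w | (w.2, w.1) ∈ S7} ∪ {w | w.1 ∈ S9})))))
  have b4 := Pr_union_le hQ0 {w | w.2 ∈ M1}
      (S5 ∪ (S6 ∪ (S7 ∪ ({w | (w.2, w.1) ∈ S7} ∪ {w | w.1 ∈ S9}))))
  have b5 := Pr_union_le hQ0 S5 (S6 ∪ (S7 ∪ ({w | (w.2, w.1) ∈ S7} ∪ {w | w.1 ∈ S9})))
  have b6 := Pr_union_le hQ0 S6 (S7 ∪ ({w | (w.2, w.1) ∈ S7} ∪ {w | w.1 ∈ S9}))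
  have b7 := Pr_union_le hQ0 S7 ({w | (w.2, w.1) ∈ S7} ∪ {w | w.1 ∈ S9})
  have b8 := Pr_union_le hQ0 {w | (w.2, w.1) ∈ S7} {w | w.1 ∈ S9}
  have b9 : 24 * ε / u + 24 * ε / u = 48 * ε / u := by ring
  linarith

/-- The good partners are admissible. -/
theorem good_spec {d : Dat} (hP : IsLaw d.P) {m : d.Lam → ℤ} {n a k₅ k' i : ℕ} {Λ : d.Om → ℝ}
    (hn : 64 ≤ n) (hk' : k' ≤ n) (hi : i ∈ Finset.Ico (n / 2) n) {ω v : d.Om} {x : ℝ}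
    (hx : (2 : ℝ) ^ (-((n / 4 : ℕ) : ℤ)) ≤ |x|)
    (h0 : 0 < kp d i ω v) (hv : (ω, v) ∉ Bd d m n a k₅ k' Λ i) :
    (|d.ta (ω, v)| ≤ (2 : ℝ) ^ (-(i : ℤ)) ∧ (2 : ℝ) ^ (-((i : ℤ) + k')) ≤ |d.ta (ω, v)| ∧
      |d.sg (ω, v)| ≤ (2 : ℝ) ^ ((a : ℤ) + 4 - m (d.L ω)) * |d.ta (ω, v)| ∧
      4 * |d.ta (ω, v)| ≤ |x|) ∧
    |d.sg (ω, v) - Λ ω * d.ta (ω, v)| ≤
      (2 : ℝ) ^ (-(m (d.L ω) + (k₅ : ℤ))) * |d.ta (ω, v)| := by
  rw [Finset.mem_Ico] at hi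
  unfold Bd at hv
  simp only [Set.mem_union, not_or] at hv
  obtain ⟨⟨h1, h2⟩, h3⟩ := hv
  have e1 : |d.ta (ω, v)| ≤ (2 : ℝ) ^ (-(i : ℤ)) := Ti_close (kp_pos hP h0).2.2
  have e2 : (2 : ℝ) ^ (-((i : ℤ) + k')) ≤ |d.ta (ω, v)| := not_lt.1 h3
  refine ⟨⟨e1, e2, ?_, ?_⟩, not_lt.1 h2⟩
  · by_contra hc
    apply h1
    refine ⟨le_trans (zpow_le_zpow_right₀ (by norm_num) ?_) e2, not_le.1 hc⟩
    omega
  · refine le_trans ?_ hx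
    have h4 : (4 : ℝ) = (2 : ℝ) ^ (2 : ℤ) := by norm_num
    calc 4 * |d.ta (ω, v)| ≤ (2 : ℝ) ^ (2 : ℤ) * (2 : ℝ) ^ (-(i : ℤ)) := by
          rw [← h4]
          linarith
      _ = (2 : ℝ) ^ (2 - (i : ℤ)) := by
        rw [← zpow_add₀ (by norm_num)]
        rfl
      _ ≤ _ := by
        refine zpow_le_zpow_right₀ (by norm_num) ?_
        omega

/-- One depth. -/
theorem one_depth {d : Dat} (hP : IsLaw d.P) {J : d.Om → Set ℕ} {m : d.Lam → ℤ}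
    {n h a b k' k₁ : ℕ} {u ε ρ ρ' : ℝ} {Λ : d.Om → ℝ} (hu : 0 < u) (hε : 0 < ε)
    (hS : Siz d n h m) (hn : 64 ≤ n) (hk' : k' ≤ n) (hk₁ : b + 6 + k' ≤ k₁)
    {B : ℕ → Set (d.Om × d.Om)} (hB : B = Bd d m n a (b + 6) k' Λ)
    {G : Set (d.Om × d.Om)} (hG : G = Gd d J m n h a (b + 6) u Λ B)
    {s : ℕ} (hs : s ∈ Finset.Ico (8 * n) (d.X - 8 * n))
    (hρ : ∑ i ∈ Finset.Ico (n / 2) n, ∑ w, d.Qp 0 w *
      ∑ v, kp d i w.1 v * ({v | w ∈ G ∧ v ∈ Gp d J m B s i w.1}).indicator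
        (fun v => Pr (cond (d.Qp 0) (d.LB m s) (d.LB m s w)) (E1 d m s i k₁ w v)) v ≤ ρ)
    (hρ' : ∑ i ∈ Finset.Ico (n / 2) n, ∑ w, d.Qp 0 w *
      ∑ v, kp d i w.2 v * ({v | w ∈ G ∧ v ∈ Gp d J m B s i w.2}).indicator
        (fun v => Pr (cond (d.Qp 0) (d.LB m s) (d.LB m s w)) (E2 d m s i k₁ w v)) v ≤ ρ') :
    Pr (dbl (d.Qp 0) (d.LB m s)) {w | (2 : ℝ) ^ (-((s : ℤ) - sc (d.ta w.1) + b)) ≤
      |d.omR (d.L w.1.1) - d.omR (d.L w.2.1)|} ≤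
    Pr (d.Qp 0) Gᶜ + ρ / (ε * (u * n / 8)) + ρ' / (ε * (u * n / 8)) + 2 * ε := by
  classical
  have hn0 : (0 : ℝ) < n := by exact_mod_cast (by omega : 0 < n)
  have hQ0 : ∀ w, 0 ≤ d.Qp 0 w := fun w => dbl_nonneg hP.nonneg w
  have hQ1 : ∑ w, d.Qp 0 w = 1 := by
    have h1 := (dbl_fst (b := fun ω => (d.L ω, d.Ti 0 ω)) hP.nonneg).ex (fun _ => (1 : ℝ))
    unfold Ex at h1
    simp only [mul_one] at h1
    rw [hP.sum_one] at h1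
    exact h1
  have hc0 : ∀ w E, 0 ≤ Pr (cond (d.Qp 0) (d.LB m s) (d.LB m s w)) E := fun w E =>
    Pr_nonneg (cond_nonneg hQ0 _ _) _
  -- the two rare events
  have r1 := rare2 hQ0 (Finset.Ico (n / 2) n) (fun i w v => kp d i w.1 v)
    (fun i w v => kp_nonneg hP i w.1 v) (fun i w => {v | w ∈ G ∧ v ∈ Gp d J m B s i w.1})
    (fun i w v => Pr (cond (d.Qp 0) (d.LB m s) (d.LB m s w)) (E1 d m s i k₁ w v))
    (fun i w v => hc0 w _) G (u := u * n / 8) (ε := ε) (ρ := ρ) (by positivity) hε (by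
      intro w hw hw0
      have hw' := hw
      rw [hG] at hw'
      have h1 := dens hP hS hu B (Qp_pos hP hw0).1 hw'.1.1.1 hw'.1.2.1 hs
      have h2 : ∀ i, {v | w ∈ G ∧ v ∈ Gp d J m B s i w.1} = Gp d J m B s i w.1 := by
        intro i
        ext v
        exact ⟨fun h => h.2, fun h => ⟨hw, h⟩⟩
      simp only [h2]
      exact h1) hρ
  have r2 := rare2 hQ0 (Finset.Ico (n / 2) n) (fun i w v => kp d i w.2 v)
    (fun i w v => kp_nonneg hP i w.2 v) (fun i w => {v | w ∈ G ∧ v ∈ Gp d J m B s i w.2})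
    (fun i w v => Pr (cond (d.Qp 0) (d.LB m s) (d.LB m s w)) (E2 d m s i k₁ w v))
    (fun i w v => hc0 w _) G (u := u * n / 8) (ε := ε) (ρ := ρ') (by positivity) hε (by
      intro w hw hw0
      have hw' := hw
      rw [hG] at hw'
      have h1 := dens hP hS hu B (Qp_pos hP hw0).2.1 hw'.1.1.2 hw'.1.2.2 hs
      have h2 : ∀ i, {v | w ∈ G ∧ v ∈ Gp d J m B s i w.2} = Gp d J m B s i w.2 := by
        intro i
        ext v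
        exact ⟨fun h => h.2, fun h => ⟨hw, h⟩⟩
      simp only [h2]
      exact h1) hρ'
  set R1 : Set (d.Om × d.Om) := {w | w ∈ G ∧ ¬ ∃ i ∈ Finset.Ico (n / 2) n,
    ∃ v ∈ {v | w ∈ G ∧ v ∈ Gp d J m B s i w.1}, 0 < kp d i w.1 v ∧
      Pr (cond (d.Qp 0) (d.LB m s) (d.LB m s w)) (E1 d m s i k₁ w v) ≤ ε} with hR1
  set R2 : Set (d.Om × d.Om) := {w | w ∈ G ∧ ¬ ∃ i ∈ Finset.Ico (n / 2) n,
    ∃ v ∈ {v | w ∈ G ∧ v ∈ Gp d J m B s i w.2}, 0 < kp d i w.2 v ∧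
      Pr (cond (d.Qp 0) (d.LB m s) (d.LB m s w)) (E2 d m s i k₁ w v) ≤ ε} with hR2
  rw [Pr_dbl]
  have hpt : ∀ w, 0 < d.Qp 0 w → Pr (cond (d.Qp 0) (d.LB m s) (d.LB m s w))
      {z | (w, z) ∈ {w : (d.Om × d.Om) × (d.Om × d.Om) |
        (2 : ℝ) ^ (-((s : ℤ) - sc (d.ta w.1) + b)) ≤
        |d.omR (d.L w.1.1) - d.omR (d.L w.2.1)|}} ≤
      (if w ∈ Gᶜ then 1 else 0) + (if w ∈ R1 then 1 else 0) + (if w ∈ R2 then 1 else 0) +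
        2 * ε := by
    intro w hw
    by_cases hwb : w ∈ Gᶜ ∨ w ∈ R1 ∨ w ∈ R2
    · refine (Pr_cond_le_one hQ0 (d.LB m s) hw _).trans ?_
      have i1 : (0 : ℝ) ≤ (if w ∈ Gᶜ then 1 else 0) := by split_ifs <;> norm_num
      have i2 : (0 : ℝ) ≤ (if w ∈ R1 then 1 else 0) := by split_ifs <;> norm_num
      have i3 : (0 : ℝ) ≤ (if w ∈ R2 then 1 else 0) := by split_ifs <;> norm_num
      rcases hwb with h1 | h1 | h1
      · rw [if_pos h1]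
        linarith
      · rw [if_pos h1]
        linarith
      · rw [if_pos h1]
        linarith
    · rw [not_or, not_or] at hwb
      obtain ⟨g1, g2, g3⟩ := hwb
      rw [if_neg g1, if_neg g2, if_neg g3]
      have hwG : w ∈ G := not_not.1 g1
      have hwG' := hwG
      rw [hG] at hwG'
      obtain ⟨-, q1, q2, q3, q4, q5⟩ := hwG'
      have j1 : ∃ i ∈ Finset.Ico (n / 2) n,
          ∃ v ∈ {v | w ∈ G ∧ v ∈ Gp d J m B s i w.1}, 0 < kp d i w.1 v ∧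
          Pr (cond (d.Qp 0) (d.LB m s) (d.LB m s w)) (E1 d m s i k₁ w v) ≤ ε := by
        by_contra hc
        exact g2 ⟨hwG, hc⟩
      have j2 : ∃ i ∈ Finset.Ico (n / 2) n,
          ∃ v ∈ {v | w ∈ G ∧ v ∈ Gp d J m B s i w.2}, 0 < kp d i w.2 v ∧
          Pr (cond (d.Qp 0) (d.LB m s) (d.LB m s w)) (E2 d m s i k₁ w v) ≤ ε := by
        by_contra hc
        exact g3 ⟨hwG, hc⟩
      obtain ⟨i, hi, v, hv, hv0, hf⟩ := j1
      obtain ⟨i', hi', v', hv', hv0', hf'⟩ := j2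
      have hvB := hv.2.1
      have hvB' := hv'.2.1
      rw [hB] at hvB hvB'
      obtain ⟨⟨-, t2, -, t4⟩, t5⟩ := good_spec hP hn hk' hi q1 hv0 hvB
      obtain ⟨⟨-, t2', -, t4'⟩, t5'⟩ := good_spec hP hn hk' hi' q1 hv0' hvB'
      have hL : d.L w.1 = d.L w.2 := (Qp_pos hP hw).2.2.1
      rw [← hL] at t5'
      have h1 : Pr (cond (d.Qp 0) (d.LB m s) (d.LB m s w))
          {z | (w, z) ∈ {w : (d.Om × d.Om) × (d.Om × d.Om) |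
            (2 : ℝ) ^ (-((s : ℤ) - sc (d.ta w.1) + b)) ≤
            |d.omR (d.L w.1.1) - d.omR (d.L w.2.1)|}} ≤
          Pr (cond (d.Qp 0) (d.LB m s) (d.LB m s w))
            (E1 d m s i k₁ w v ∪ E2 d m s i' k₁ w v') := by
        refine Pr_mono (cond_nonneg hQ0 _ _) fun z hz hzE => ?_
        by_contra hc
        rw [Set.mem_union, not_or] at hc
        obtain ⟨-, hzL⟩ := (cond_pos_iff hQ0 _ _ z).1 hz
        exact final_pt d m hk₁ hzL t2 t4 t2' t4' t5 t5' q3 q4 q5 hc.1 hc.2 hzE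
      have h2 := Pr_union_le (p := cond (d.Qp 0) (d.LB m s) (d.LB m s w)) (cond_nonneg hQ0 _ _)
        (E1 d m s i k₁ w v) (E2 d m s i' k₁ w v')
      linarith
  refine (Ex_mono hQ0 hpt).trans ?_
  rw [Ex_add, Ex_add, Ex_add, Ex_const hQ1]
  have hE : ∀ (E : Set (d.Om × d.Om)) (D : ∀ w, Decidable (w ∈ E)),
      Ex (d.Qp 0) (fun w => @ite ℝ (w ∈ E) (D w) 1 0) = Pr (d.Qp 0) E := by
    intro E D
    rw [Pr_eq]
    unfold Ex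
    refine Finset.sum_congr rfl fun w _ => ?_
    show d.Qp 0 w * (@ite ℝ (w ∈ E) (D w) 1 0) = _
    by_cases h : w ∈ E
    · rw [if_pos h, if_pos h, mul_one]
    · rw [if_neg h, if_neg h, mul_zero]
  rw [hE, hE, hE]
  linarith

end Pool.OC.FN

namespace Pool.OC

open Finset Real
open Pool.Agent.H49.Ent Pool.Agent.H32.Dense Pool.STK Pool.KAF

open FN in
/-- **FIN.** -/
theorem fin_thm : FINStmt := by
  classical
  intro u ca hu hu1 hca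
  refine ⟨ca * u / 10000, by positivity, fun A a b k' =>
    ⟨b + 6, b + 6 + k', 64 + k', ca * ca * u / 100000, by omega, by positivity, ?_⟩⟩
  intro d J m n h k k₁ e Λ hOK hS hn0 hk hk₁ he hRB hRB' hJ hN hTA hTB hA hΛ hAct
  have hP := hOK.law
  have hn : 64 ≤ n := by omega
  have hk' : k' ≤ n := by omega
  have hnX : n ≤ d.X := by
    have := hS.nX
    omega
  have hnR : (0 : ℝ) < n := by exact_mod_cast (by omega : 0 < n)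
  have hX : (0 : ℝ) < d.X := by exact_mod_cast (by omega : 0 < d.X)
  set B := Bd d m n a (b + 6) k' Λ with hB
  set G := Gd d J m n h a (b + 6) u Λ B with hG
  set ε : ℝ := ca / 64 with hε
  have hε0 : 0 < ε := by positivity
  have hGc : Pr (d.Qp 0) Gᶜ ≤ 7 * (ca * u / 10000) + 48 * (ca * u / 10000) / u :=
    Gd_compl hP hu (by positivity) hn hnX hJ hN hTA hTB hA hΛ
  have hGA1 : ∀ w ∈ G, 0 < d.Qp 0 w → ∀ i ∈ Finset.Ico (n / 2) n, ∀ v, 0 < kp d i w.1 v →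
      (w.1, v) ∉ B i → (m (d.L w.1), d.T w.1, d.T w.2, d.T v) ∈ A1 d a k' i := by
    intro w hw hw0 i hi v hv hvB
    exact (good_spec hP hn hk' hi hw.2.1 hv hvB).1
  have hGA2 : ∀ w ∈ G, 0 < d.Qp 0 w → ∀ i ∈ Finset.Ico (n / 2) n, ∀ v, 0 < kp d i w.2 v →
      (w.2, v) ∉ B i → (m (d.L w.1), d.T w.1, d.T w.2, d.T v) ∈ A2 d a k' i := by
    intro w hw hw0 i hi v hv hvB
    have h1 := (good_spec hP hn hk' hi hw.2.1 hv hvB).1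
    have hL : d.L w.1 = d.L w.2 := (Qp_pos hP hw0).2.2.1
    rw [← hL] at h1
    exact ⟨h1, hw.2.2.1⟩
  have hr1 := row1 hP hk hRB G B hGA1
  have hr2 := row2 hP hk hRB' G B hGA2
  have hone := fun s (hs : s ∈ Finset.Ico (8 * n) (d.X - 8 * n)) =>
    one_depth (Λ := Λ) hP hu hε0 hS hn hk' hk₁ hB hG hs le_rfl le_rfl
  have hsum := hAct.trans (Finset.sum_le_sum hone)
  rw [Finset.sum_add_distrib, Finset.sum_add_distrib, Finset.sum_add_distrib, Finset.sum_const,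
    Finset.sum_const, ← Finset.sum_div, ← Finset.sum_div, Nat.card_Ico, nsmul_eq_mul,
    nsmul_eq_mul] at hsum
  have hc : ((d.X - 8 * n - 8 * n : ℕ) : ℝ) ≤ d.X := by
    exact_mod_cast (by omega : d.X - 8 * n - 8 * n ≤ d.X)
  have hPG0 : 0 ≤ Pr (d.Qp 0) Gᶜ := Pr_nonneg (fun w => dbl_nonneg hP.nonneg w) _
  have a1 : ((d.X - 8 * n - 8 * n : ℕ) : ℝ) * Pr (d.Qp 0) Gᶜ ≤
      d.X * (7 * (ca * u / 10000) + 48 * (ca * u / 10000) / u) :=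
    mul_le_mul hc hGc hPG0 hX.le
  have a2 : ((d.X - 8 * n - 8 * n : ℕ) : ℝ) * (2 * ε) ≤ d.X * (2 * ε) :=
    mul_le_mul_of_nonneg_right hc (by positivity)
  have hρ : ((n - n / 2 : ℕ) : ℝ) * (e * d.X) ≤ n * (ca * ca * u / 100000 * d.X) := by
    have c1 : ((n - n / 2 : ℕ) : ℝ) ≤ n := by
      exact_mod_cast Nat.sub_le n (n / 2)
    have c2 : e * d.X ≤ ca * ca * u / 100000 * d.X := mul_le_mul_of_nonneg_right he hX.le
    calc ((n - n / 2 : ℕ) : ℝ) * (e * d.X)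
        ≤ ((n - n / 2 : ℕ) : ℝ) * (ca * ca * u / 100000 * d.X) :=
          mul_le_mul_of_nonneg_left c2 (Nat.cast_nonneg _)
      _ ≤ n * (ca * ca * u / 100000 * d.X) :=
          mul_le_mul_of_nonneg_right c1 (by positivity)
  have a3 : ∀ R : ℝ, R ≤ ((n - n / 2 : ℕ) : ℝ) * (e * d.X) →
      R / (ε * (u * n / 8)) ≤ 512 * ca / 100000 * d.X := by
    intro R hR
    rw [div_le_iff₀ (by positivity)]
    refine (hR.trans hρ).trans (le_of_eq ?_)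
    rw [hε]
    ring
  have a4 := a3 _ hr1
  have a5 := a3 _ hr2
  have a6 : d.X * (7 * (ca * u / 10000) + 48 * (ca * u / 10000) / u) ≤
      d.X * (55 * ca / 10000) := by
    refine mul_le_mul_of_nonneg_left ?_ hX.le
    have c1 : 48 * (ca * u / 10000) / u = 48 * ca / 10000 := by
      field_simp
    rw [c1]
    have c2 : ca * u ≤ ca * 1 := mul_le_mul_of_nonneg_left hu1 hca.le
    linarith
  have a7 : 0 < ca * d.X := by positivity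
  have a8 : d.X * (2 * ε) = ca * d.X / 32 := by
    rw [hε]
    ring
  rw [a8] at a2
  linarith

end Pool.OC
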