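import Pool.Agent.H29.OC.NlcS

/-!
# OC, the final contradiction: pointwise part

The forms of a pair in the frame of the base time, their size in the cells of stage B, two almost
determined forms with different velocity coefficients, the number of heavy rows in an interval,
and the choice of the partners.
-/

set_option autoImplicit false

namespace Pool.OC.FN

open Finset Real
open Pool.Agent.H49.Ent Pool.Agent.H32.Dense Pool.STK Pool.KAF Pool.OC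

/-! ### algebra -/

/-- Two almost determined forms bound the velocity. -/
theorem two_forms {τ σ τ' σ' ta sg Λ₁ Λ₂ b y o η ρ : ℝ}
    (h1 : |τ * b - σ * y - σ * τ * o| ≤ ρ * |τ|)
    (h2 : |τ' * (b - sg * o) - σ' * (y + ta * o) - σ' * τ' * o| ≤ ρ * |τ'|)
    (hτ : 0 < |τ|) (hτ' : 0 < |τ'|) (ht : 4 * |τ| ≤ |ta|) (ht' : 4 * |τ'| ≤ |ta|)
    (a1 : |σ - Λ₁ * τ| ≤ η * |τ|) (a2 : |σ' - Λ₂ * τ'| ≤ η * |τ'|)
    (a3 : |sg - Λ₁ * ta| ≤ η * |ta|) (a4 : |sg - Λ₂ * ta| ≤ η * |ta|)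
    (hη : 16 * η ≤ |Λ₁|) :
    |Λ₁| * |ta| * |o| ≤ 4 * η * |y| + 2 * ρ := by
  have hτ0 : τ ≠ 0 := abs_pos.1 hτ
  have hτ0' : τ' ≠ 0 := abs_pos.1 hτ'
  obtain ⟨χ, hχ⟩ : ∃ χ, σ = χ * τ := ⟨σ / τ, by field_simp⟩
  obtain ⟨χ', hχ'⟩ : ∃ χ', σ' = χ' * τ' := ⟨σ' / τ', by field_simp⟩
  subst hχ
  subst hχ'
  have hta : 0 < |ta| := by linarith
  -- slopes
  have b1 : |χ - Λ₁| ≤ η := by
    rw [← sub_mul, abs_mul] at a1
    exact le_of_mul_le_mul_right a1 hτ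
  have b2 : |χ' - Λ₂| ≤ η := by
    rw [← sub_mul, abs_mul] at a2
    exact le_of_mul_le_mul_right a2 hτ'
  have b3 : |Λ₁ - Λ₂| ≤ 2 * η := by
    have h3 : |(Λ₁ - Λ₂) * ta| ≤ 2 * η * |ta| := by
      have h4 : (Λ₁ - Λ₂) * ta = (sg - Λ₂ * ta) - (sg - Λ₁ * ta) := by ring
      rw [h4]
      refine (abs_sub _ _).trans ?_
      linarith
    rw [abs_mul] at h3
    exact le_of_mul_le_mul_right h3 hta
  -- the forms divided by the times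
  have c1 : |b - χ * y - χ * τ * o| ≤ ρ := by
    have h3 : τ * b - χ * τ * y - χ * τ * τ * o = (b - χ * y - χ * τ * o) * τ := by ring
    rw [h3, abs_mul] at h1
    exact le_of_mul_le_mul_right h1 hτ
  have c2 : |b - sg * o - χ' * (y + ta * o) - χ' * τ' * o| ≤ ρ := by
    have h3 : τ' * (b - sg * o) - χ' * τ' * (y + ta * o) - χ' * τ' * τ' * o =
      (b - sg * o - χ' * (y + ta * o) - χ' * τ' * o) * τ' := by ring
    rw [h3, abs_mul] at h2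
    exact le_of_mul_le_mul_right h2 hτ'
  have hη0 : 0 ≤ η := (abs_nonneg _).trans b1
  -- the difference
  have c3 : |(χ' - χ) * y + (sg + χ' * ta + χ' * τ' - χ * τ) * o| ≤ 2 * ρ := by
    have h3 : (χ' - χ) * y + (sg + χ' * ta + χ' * τ' - χ * τ) * o =
        (b - χ * y - χ * τ * o) - (b - sg * o - χ' * (y + ta * o) - χ' * τ' * o) := by ring
    rw [h3]
    refine (abs_sub _ _).trans ?_
    linarith
  have d1 : |χ' - Λ₁| ≤ 3 * η := by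
    have h3 : χ' - Λ₁ = (χ' - Λ₂) - (Λ₁ - Λ₂) := by ring
    rw [h3]
    refine (abs_sub _ _).trans ?_
    linarith
  have d2 : |χ' - χ| ≤ 4 * η := by
    have h3 : χ' - χ = (χ' - Λ₁) - (χ - Λ₁) := by ring
    rw [h3]
    refine (abs_sub _ _).trans ?_
    linarith
  have d3 : |χ| ≤ 5 / 4 * |Λ₁| := by
    have h3 := abs_sub_abs_le_abs_sub χ Λ₁
    linarith [abs_nonneg Λ₁]
  have d4 : |χ'| ≤ 5 / 4 * |Λ₁| := by
    have h3 := abs_sub_abs_le_abs_sub χ' Λ₁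
    linarith [abs_nonneg Λ₁]
  -- the coefficient
  have e1 : |Λ₁| * |ta| ≤ |sg + χ' * ta + χ' * τ' - χ * τ| := by
    have h3 : 2 * Λ₁ * ta = (sg + χ' * ta + χ' * τ' - χ * τ) + (-(sg - Λ₁ * ta) +
        -((χ' - Λ₁) * ta) + (-(χ' * τ') + χ * τ)) := by ring
    have h4 : |2 * Λ₁ * ta| = 2 * (|Λ₁| * |ta|) := by
      rw [abs_mul, abs_mul, abs_two]
      ring
    have h5 := abs_add_le (sg + χ' * ta + χ' * τ' - χ * τ) (-(sg - Λ₁ * ta) +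
        -((χ' - Λ₁) * ta) + (-(χ' * τ') + χ * τ))
    rw [← h3, h4] at h5
    have h6 := abs_add_le (-(sg - Λ₁ * ta) + -((χ' - Λ₁) * ta)) (-(χ' * τ') + χ * τ)
    have h7 := abs_add_le (-(sg - Λ₁ * ta)) (-((χ' - Λ₁) * ta))
    have h8 := abs_add_le (-(χ' * τ')) (χ * τ)
    rw [abs_neg, abs_neg] at h7
    rw [abs_neg] at h8
    have h9 : |(χ' - Λ₁) * ta| ≤ 3 * η * |ta| := by
      rw [abs_mul]
      exact mul_le_mul_of_nonneg_right d1 hta.le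
    have h10 : |χ' * τ'| ≤ 5 / 4 * |Λ₁| * (|ta| / 4) := by
      rw [abs_mul]
      exact mul_le_mul d4 (by linarith) (abs_nonneg _) (by positivity)
    have h11 : |χ * τ| ≤ 5 / 4 * |Λ₁| * (|ta| / 4) := by
      rw [abs_mul]
      exact mul_le_mul d3 (by linarith) (abs_nonneg _) (by positivity)
    have h12 := mul_le_mul_of_nonneg_right hη hta.le
    have h13 : 0 ≤ |Λ₁| * |ta| := by positivity
    nlinarith
  have e2 : |(sg + χ' * ta + χ' * τ' - χ * τ) * o| ≤ 2 * ρ + 4 * η * |y| := by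
    have h3 : (sg + χ' * ta + χ' * τ' - χ * τ) * o =
        ((χ' - χ) * y + (sg + χ' * ta + χ' * τ' - χ * τ) * o) - (χ' - χ) * y := by ring
    rw [h3]
    refine (abs_sub _ _).trans ?_
    have h4 : |(χ' - χ) * y| ≤ 4 * η * |y| := by
      rw [abs_mul]
      exact mul_le_mul_of_nonneg_right d2 (abs_nonneg _)
    linarith
  rw [abs_mul] at e2
  have e3 := mul_le_mul_of_nonneg_right e1 (abs_nonneg o)
  linarith

/-- The numbers of the contradiction. -/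
theorem two_forms_zpow {Λ₁ ta o y : ℝ} {m : ℤ} {s b k₁ k' : ℕ} {a₀ : ℤ}
    (hk₁ : b + 6 + k' ≤ k₁) (hΛ : (2 : ℝ) ^ (-m - 2) ≤ |Λ₁|) (hta : (2 : ℝ) ^ (-a₀) ≤ |ta|)
    (hy : |y| ≤ (2 : ℝ) ^ (-(s : ℤ)))
    (ho : (2 : ℝ) ^ (-((s : ℤ) - a₀ + b)) ≤ |o|)
    (h : |Λ₁| * |ta| * |o| ≤ 4 * (2 : ℝ) ^ (-(m + ((b + 6 : ℕ) : ℤ))) * |y| +
      2 * (2 : ℝ) ^ (-((s : ℤ) + m + k₁ - k'))) : False := by
  set M : ℝ := (2 : ℝ) ^ (-m - 2 - (s : ℤ) - b) with hM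
  have hM0 : 0 < M := by positivity
  have h1 : M ≤ |Λ₁| * |ta| * |o| := by
    have h2 : M = (2 : ℝ) ^ (-m - 2) * (2 : ℝ) ^ (-a₀) * (2 : ℝ) ^ (-((s : ℤ) - a₀ + b)) := by
      rw [← zpow_add₀ (by norm_num), ← zpow_add₀ (by norm_num), hM]
      congr 1
      ring
    rw [h2]
    exact mul_le_mul (mul_le_mul hΛ hta (by positivity) (abs_nonneg _)) ho (by positivity)
      (by positivity)
  have h2 : 4 * (2 : ℝ) ^ (-(m + ((b + 6 : ℕ) : ℤ))) * |y| ≤ M / 4 := by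
    have h3 : 4 * (2 : ℝ) ^ (-(m + ((b + 6 : ℕ) : ℤ))) * (2 : ℝ) ^ (-(s : ℤ)) = M / 4 := by
      have h4 : (4 : ℝ) = (2 : ℝ) ^ (2 : ℤ) := by norm_num
      rw [h4, ← zpow_add₀ (by norm_num), ← zpow_add₀ (by norm_num), hM, ← zpow_sub₀ (by norm_num)]
      congr 1
      push_cast
      ring
    rw [← h3]
    exact mul_le_mul_of_nonneg_left hy (by positivity)
  have h3 : 2 * (2 : ℝ) ^ (-((s : ℤ) + m + k₁ - k')) ≤ M / 4 := by
    have h4 : M / 4 = 2 * (2 : ℝ) ^ (-m - 5 - (s : ℤ) - b) := by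
      have h5 : (4 : ℝ) = (2 : ℝ) ^ (2 : ℤ) := by norm_num
      have h6 : (2 : ℝ) * (2 : ℝ) ^ (-m - 5 - (s : ℤ) - b) =
          (2 : ℝ) ^ (1 : ℤ) * (2 : ℝ) ^ (-m - 5 - (s : ℤ) - b) := by norm_num
      rw [h6, h5, ← zpow_add₀ (by norm_num), hM, ← zpow_sub₀ (by norm_num)]
      congr 1
      ring
    rw [h4]
    refine mul_le_mul_of_nonneg_left (zpow_le_zpow_right₀ (by norm_num) ?_) (by norm_num)
    omega
  linarith

/-! ### the forms -/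

theorem ZR_sub (d : Dat) (t₁ t₀ : d.Tau) (l v : d.Lam) :
    d.ZR t₁ t₀ l - d.ZR t₁ t₀ v =
      (d.th t₀ - d.th t₁) * ((d.beR l - d.S t₁ * d.omR l) - (d.beR v - d.S t₁ * d.omR v)) -
      (d.S t₀ - d.S t₁) * ((d.yR l + d.th t₁ * d.omR l) - (d.yR v + d.th t₁ * d.omR v)) -
      (d.S t₀ - d.S t₁) * (d.th t₀ - d.th t₁) * (d.omR l - d.omR v) := by
  unfold Dat.ZR
  ring

theorem ZR_sub' (d : Dat) (t₁ t₂ t₀ : d.Tau) (l v : d.Lam) :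
    d.ZR t₂ t₀ l - d.ZR t₂ t₀ v =
      (d.th t₀ - d.th t₂) * (((d.beR l - d.S t₁ * d.omR l) - (d.beR v - d.S t₁ * d.omR v)) -
        (d.S t₂ - d.S t₁) * (d.omR l - d.omR v)) -
      (d.S t₀ - d.S t₂) * (((d.yR l + d.th t₁ * d.omR l) - (d.yR v + d.th t₁ * d.omR v)) +
        (d.th t₂ - d.th t₁) * (d.omR l - d.omR v)) -
      (d.S t₀ - d.S t₂) * (d.th t₀ - d.th t₂) * (d.omR l - d.omR v) := by
  unfold Dat.ZR
  ring

theorem sc_spec {x : ℝ} (hx : x ≠ 0) : (2 : ℝ) ^ (-sc x) ≤ |x| ∧ |x| < (2 : ℝ) ^ (1 - sc x) := by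
  have h0 : 0 < |x| := abs_pos.2 hx
  unfold sc
  constructor
  · rw [neg_neg]
    exact_mod_cast Int.zpow_log_le_self (by norm_num) h0
  · have h1 := Int.lt_zpow_succ_log_self (b := 2) (by norm_num) |x|
    have h2 : (1 : ℤ) - -Int.log 2 |x| = Int.log 2 |x| + 1 := by ring
    rw [h2]
    exact_mod_cast h1

/-- Two samples of one cell of stage B. -/
theorem LB_spec (d : Dat) (m : d.Lam → ℤ) {s : ℕ} {v w : d.Om × d.Om}
    (h : d.LB m s v = d.LB m s w) :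
    d.T v.1 = d.T w.1 ∧ d.T v.2 = d.T w.2 ∧ m (d.L v.1) = m (d.L w.1) ∧
    |d.omR (d.L w.1) - d.omR (d.L v.1)| ≤ (2 : ℝ) ^ (sc (d.ta w) - s) ∧
    |(d.yR (d.L w.1) + d.th (d.T w.1) * d.omR (d.L w.1)) -
      (d.yR (d.L v.1) + d.th (d.T w.1) * d.omR (d.L v.1))| ≤ (2 : ℝ) ^ (-(s : ℤ)) ∧
    |(d.beR (d.L w.1) - d.S (d.T w.1) * d.omR (d.L w.1)) -
      (d.beR (d.L v.1) - d.S (d.T w.1) * d.omR (d.L v.1))| ≤
        (2 : ℝ) ^ (-((s : ℤ) + m (d.L w.1))) := by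
  unfold Dat.LB at h
  simp only [Prod.mk.injEq] at h
  obtain ⟨h1, h2, h3⟩ := h
  have hta : d.ta v = d.ta w := by
    unfold Dat.ta
    rw [h1, h2]
  rw [hta, h1] at h3
  unfold Dat.GB at h3
  simp only [Prod.mk.injEq] at h3
  obtain ⟨g1, g2, g3, g4⟩ := h3
  rw [g1] at g4
  have key : ∀ (z : ℤ) (x y : ℝ), ⌊(2 : ℝ) ^ z * y⌋ = ⌊(2 : ℝ) ^ z * x⌋ →
      |x - y| ≤ (2 : ℝ) ^ (-z) := by
    intro z x y hxy
    have h1 := Int.abs_sub_lt_one_of_floor_eq_floor hxy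
    rw [← mul_sub, abs_mul, abs_of_pos (by positivity : (0 : ℝ) < 2 ^ z), abs_sub_comm] at h1
    rw [zpow_neg, ← one_div, le_div_iff₀ (by positivity), mul_comm]
    exact h1.le
  refine ⟨h1, h2, g1, ?_, ?_, ?_⟩
  · have h4 := key _ _ _ g2
    rwa [neg_sub] at h4
  · have h4 := key (s : ℤ) (d.yR (d.L w.1) + d.th (d.T w.1) * d.omR (d.L w.1))
      (d.yR (d.L v.1) + d.th (d.T w.1) * d.omR (d.L v.1)) (by
        rw [zpow_natCast]
        exact g3)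
    exact h4
  · exact key _ _ _ g4

/-- The size of a form in a cell of stage B, base = first sample. -/
theorem size_one {τ σ b y o ta : ℝ} {m a₀ : ℤ} {s i a k : ℕ} (hk : a + 12 ≤ k)
    (hτ : |τ| ≤ (2 : ℝ) ^ (-(i : ℤ))) (hσ : |σ| ≤ (2 : ℝ) ^ ((a : ℤ) + 4 - m) * |τ|)
    (ht : 4 * |τ| ≤ |ta|) (hta : |ta| ≤ (2 : ℝ) ^ (1 - a₀))
    (ho : |o| ≤ (2 : ℝ) ^ (a₀ - s)) (hy : |y| ≤ (2 : ℝ) ^ (-(s : ℤ)))
    (hb : |b| ≤ (2 : ℝ) ^ (-((s : ℤ) + m))) :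
    |τ * b - σ * y - σ * τ * o| ≤ (2 : ℝ) ^ ((k : ℤ) - (s + (m + i))) := by
  set U : ℝ := (2 : ℝ) ^ (-((s : ℤ) + (m + i))) with hU
  have hU0 : 0 < U := by positivity
  have h1 : |τ * b| ≤ U := by
    rw [abs_mul]
    refine (mul_le_mul hτ hb (abs_nonneg _) (by positivity)).trans (le_of_eq ?_)
    rw [← zpow_add₀ (by norm_num), hU]
    congr 1
    ring
  have hσ' : |σ| ≤ (2 : ℝ) ^ ((a : ℤ) + 4 - m) * (2 : ℝ) ^ (-(i : ℤ)) :=
    hσ.trans (mul_le_mul_of_nonneg_left hτ (by positivity))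
  have h2 : |σ * y| ≤ (2 : ℝ) ^ ((a : ℤ) + 4) * U := by
    rw [abs_mul]
    refine (mul_le_mul hσ' hy (abs_nonneg _) (by positivity)).trans (le_of_eq ?_)
    rw [← zpow_add₀ (by norm_num), ← zpow_add₀ (by norm_num), hU, ← zpow_add₀ (by norm_num)]
    congr 1
    ring
  have h3 : |τ * o| ≤ (2 : ℝ) ^ (-(s : ℤ)) := by
    rw [abs_mul]
    have h4 : |τ| ≤ (2 : ℝ) ^ (1 - a₀) := by linarith [abs_nonneg τ]
    have h5 : |τ| ≤ (2 : ℝ) ^ (-a₀) := by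
      have h6 : (2 : ℝ) ^ (1 - a₀) = 2 * (2 : ℝ) ^ (-a₀) := by
        rw [sub_eq_add_neg, zpow_add₀ (by norm_num), zpow_one]
      rw [h6] at hta
      linarith [abs_nonneg τ]
    refine (mul_le_mul h5 ho (abs_nonneg _) (by positivity)).trans (le_of_eq ?_)
    rw [← zpow_add₀ (by norm_num)]
    congr 1
    ring
  have h4 : |σ * τ * o| ≤ (2 : ℝ) ^ ((a : ℤ) + 4) * U := by
    rw [mul_assoc, abs_mul]
    refine (mul_le_mul hσ' h3 (abs_nonneg _) (by positivity)).trans (le_of_eq ?_)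
    rw [← zpow_add₀ (by norm_num), ← zpow_add₀ (by norm_num), hU, ← zpow_add₀ (by norm_num)]
    congr 1
    ring
  have h5 : |τ * b - σ * y - σ * τ * o| ≤ U + (2 : ℝ) ^ ((a : ℤ) + 4) * U +
      (2 : ℝ) ^ ((a : ℤ) + 4) * U := by
    have g1 := abs_sub (τ * b - σ * y) (σ * τ * o)
    have g2 := abs_sub (τ * b) (σ * y)
    linarith
  have h6 : (1 : ℝ) ≤ (2 : ℝ) ^ ((a : ℤ) + 4) := by
    refine one_le_zpow₀ (by norm_num) ?_
    positivity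
  have h7 : (2 : ℝ) ^ ((k : ℤ) - (s + (m + i))) = (2 : ℝ) ^ (k : ℤ) * U := by
    rw [hU, ← zpow_add₀ (by norm_num)]
    congr 1
  have h8 : (2 : ℝ) ^ ((a : ℤ) + 6) ≤ (2 : ℝ) ^ (k : ℤ) := by
    refine zpow_le_zpow_right₀ (by norm_num) ?_
    omega
  have h9 : (2 : ℝ) ^ ((a : ℤ) + 6) = 4 * (2 : ℝ) ^ ((a : ℤ) + 4) := by
    rw [show (a : ℤ) + 6 = 2 + ((a : ℤ) + 4) by ring, zpow_add₀ (by norm_num)]
    norm_num
  rw [h7]
  refine h5.trans ?_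
  have h10 : 1 + (2 : ℝ) ^ ((a : ℤ) + 4) + (2 : ℝ) ^ ((a : ℤ) + 4) ≤ (2 : ℝ) ^ (k : ℤ) := by
    linarith
  have h11 := mul_le_mul_of_nonneg_right h10 hU0.le
  linarith

/-- The size of a form in a cell of stage B, base = second sample. -/
theorem size_two {τ σ b y o ta sg : ℝ} {m a₀ : ℤ} {s i a k : ℕ} (hk : a + 12 ≤ k)
    (hτ : |τ| ≤ (2 : ℝ) ^ (-(i : ℤ))) (hσ : |σ| ≤ (2 : ℝ) ^ ((a : ℤ) + 4 - m) * |τ|)
    (hsg : |sg| ≤ (2 : ℝ) ^ ((a : ℤ) + 4 - m) * |ta|)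
    (ht : 4 * |τ| ≤ |ta|) (hta : |ta| ≤ (2 : ℝ) ^ (1 - a₀))
    (ho : |o| ≤ (2 : ℝ) ^ (a₀ - s)) (hy : |y| ≤ (2 : ℝ) ^ (-(s : ℤ)))
    (hb : |b| ≤ (2 : ℝ) ^ (-((s : ℤ) + m))) :
    |τ * (b - sg * o) - σ * (y + ta * o) - σ * τ * o| ≤
      (2 : ℝ) ^ ((k : ℤ) - (s + (m + i))) := by
  set U : ℝ := (2 : ℝ) ^ (-((s : ℤ) + (m + i))) with hU
  have hU0 : 0 < U := by positivity
  set M : ℝ := (2 : ℝ) ^ ((a : ℤ) + 4) with hM
  have hM0 : 0 < M := by positivity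
  have hm : (2 : ℝ) ^ ((a : ℤ) + 4 - m) = M * (2 : ℝ) ^ (-m) := by
    rw [hM, ← zpow_add₀ (by norm_num)]
    rfl
  have hUe : U = (2 : ℝ) ^ (-(s : ℤ)) * (2 : ℝ) ^ (-m) * (2 : ℝ) ^ (-(i : ℤ)) := by
    rw [hU, ← zpow_add₀ (by norm_num), ← zpow_add₀ (by norm_num)]
    congr 1
    ring
  have hb' : |b| ≤ (2 : ℝ) ^ (-(s : ℤ)) * (2 : ℝ) ^ (-m) := by
    refine hb.trans (le_of_eq ?_)
    rw [← zpow_add₀ (by norm_num)]
    congr 1
    ring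
  rw [hm] at hσ hsg
  have hσ' : |σ| ≤ M * (2 : ℝ) ^ (-m) * (2 : ℝ) ^ (-(i : ℤ)) :=
    hσ.trans (mul_le_mul_of_nonneg_left hτ (by positivity))
  have h3 : |τ * o| ≤ (2 : ℝ) ^ (-(s : ℤ)) := by
    rw [abs_mul]
    have h5 : |τ| ≤ (2 : ℝ) ^ (-a₀) := by
      have h6 : (2 : ℝ) ^ (1 - a₀) = 2 * (2 : ℝ) ^ (-a₀) := by
        rw [sub_eq_add_neg, zpow_add₀ (by norm_num), zpow_one]
      rw [h6] at hta
      linarith [abs_nonneg τ]
    refine (mul_le_mul h5 ho (abs_nonneg _) (by positivity)).trans (le_of_eq ?_)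
    rw [← zpow_add₀ (by norm_num)]
    congr 1
    ring
  have h4 : |ta| * |o| ≤ 2 * (2 : ℝ) ^ (-(s : ℤ)) := by
    refine (mul_le_mul hta ho (abs_nonneg _) (by positivity)).trans (le_of_eq ?_)
    rw [← zpow_add₀ (by norm_num)]
    rw [show (1 - a₀ + (a₀ - (s : ℤ))) = 1 + (-(s : ℤ)) by ring, zpow_add₀ (by norm_num), zpow_one]
  have h5 : |sg * o| ≤ M * (2 : ℝ) ^ (-m) * (2 * (2 : ℝ) ^ (-(s : ℤ))) := by
    rw [abs_mul]
    have g1 := mul_le_mul_of_nonneg_right hsg (abs_nonneg o)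
    have g2 := mul_le_mul_of_nonneg_left h4 (by positivity : 0 ≤ M * (2 : ℝ) ^ (-m))
    linarith
  have h6 : |b - sg * o| ≤ (2 : ℝ) ^ (-(s : ℤ)) * (2 : ℝ) ^ (-m) * (1 + 2 * M) := by
    refine (abs_sub _ _).trans ?_
    linarith
  have h7 : |y + ta * o| ≤ (2 : ℝ) ^ (-(s : ℤ)) * 3 := by
    refine (abs_add_le _ _).trans ?_
    rw [abs_mul]
    linarith
  have k1 : |τ * (b - sg * o)| ≤ U * (1 + 2 * M) := by
    rw [abs_mul]
    refine (mul_le_mul hτ h6 (abs_nonneg _) (by positivity)).trans (le_of_eq ?_)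
    rw [hUe]
    ring
  have k2 : |σ * (y + ta * o)| ≤ U * (3 * M) := by
    rw [abs_mul]
    refine (mul_le_mul hσ' h7 (abs_nonneg _) (by positivity)).trans (le_of_eq ?_)
    rw [hUe]
    ring
  have k3 : |σ * τ * o| ≤ U * M := by
    rw [mul_assoc, abs_mul]
    refine (mul_le_mul hσ' h3 (abs_nonneg _) (by positivity)).trans (le_of_eq ?_)
    rw [hUe]
    ring
  have k4 : |τ * (b - sg * o) - σ * (y + ta * o) - σ * τ * o| ≤ U * (1 + 6 * M) := by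
    have g1 := abs_sub (τ * (b - sg * o) - σ * (y + ta * o)) (σ * τ * o)
    have g2 := abs_sub (τ * (b - sg * o)) (σ * (y + ta * o))
    linarith
  have h10 : (1 : ℝ) ≤ M := by
    refine one_le_zpow₀ (by norm_num) ?_
    positivity
  have h11 : (2 : ℝ) ^ ((k : ℤ) - (s + (m + i))) = (2 : ℝ) ^ (k : ℤ) * U := by
    rw [hU, ← zpow_add₀ (by norm_num)]
    congr 1
  have h12 : (2 : ℝ) ^ ((a : ℤ) + 7) ≤ (2 : ℝ) ^ (k : ℤ) := by
    refine zpow_le_zpow_right₀ (by norm_num) ?_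
    omega
  have h13 : (2 : ℝ) ^ ((a : ℤ) + 7) = 8 * M := by
    rw [hM, show (a : ℤ) + 7 = 3 + ((a : ℤ) + 4) by ring, zpow_add₀ (by norm_num)]
    norm_num
  rw [h11]
  refine k4.trans ?_
  have h14 : 1 + 6 * M ≤ (2 : ℝ) ^ (k : ℤ) := by linarith
  have h15 := mul_le_mul_of_nonneg_left h14 hU0.le
  linarith

end Pool.OC.FN
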