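import Pool.Agent.H64.OC.FinA

/-!
# OC, the final contradiction: counting
-/

set_option autoImplicit false

namespace Pool.OC.FN

open Finset Real
open Pool.Agent.H49.Ent Pool.Agent.H32.Dense Pool.STK Pool.KAF Pool.OC

/-- Heavy rows in an interval. -/
theorem cnt_gen (J₀ : Set ℕ) {X h : ℕ} (h1 : 1 ≤ h) {u : ℝ} (hu : 0 < u)
    (hJ : ∀ j : ℕ, (j + 2) * h ≤ X →
      u * h ≤ (Set.ncard {r | r ∈ J₀ ∧ j * h ≤ r ∧ r < (j + 1) * h} : ℝ)) {α β : ℕ}
    (hβ : β + h ≤ X) [DecidablePred (· ∈ J₀)] :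
    u * ((β : ℝ) - α - 2 * h) ≤ (((Finset.Ico α β).filter fun r => r ∈ J₀).card : ℝ) := by
  classical
  have hh : 0 < h := h1
  set j₀ : ℕ := α / h + 1 with hj₀
  set j₁ : ℕ := β / h with hj₁
  have e0 : (0 : ℝ) ≤ (((Finset.Ico α β).filter fun r => r ∈ J₀).card : ℝ) := Nat.cast_nonneg _
  have a1 : α < j₀ * h := by
    have := Nat.lt_div_mul_add hh (a := α)
    rw [hj₀, add_mul, one_mul]
    exact this
  have a2 : j₁ * h ≤ β := Nat.div_mul_le_self _ _
  have a3 : β < j₁ * h + h := Nat.lt_div_mul_add hh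
  have a4 : j₀ * h ≤ α + h := by
    have := Nat.div_mul_le_self α h
    rw [hj₀, add_mul, one_mul]
    omega
  by_cases hj : j₀ ≤ j₁
  · have hblock : ∀ j, j₀ ≤ j → j ≤ j₁ →
        ((j : ℝ) - j₀) * (u * h) ≤
          (((Finset.Ico (j₀ * h) (j * h)).filter fun r => r ∈ J₀).card : ℝ) := by
      intro j hj hj'
      induction j, hj using Nat.le_induction with
      | base => simp
      | succ j hj ih =>
        have h3 := ih (by omega)
        have h4 : (j + 2) * h ≤ X := by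
          have h5 : (j + 1) * h ≤ j₁ * h := Nat.mul_le_mul_right _ hj'
          have h6 : (j + 2) * h = (j + 1) * h + h := by ring
          omega
        have h5 := hJ j h4
        have h6 : Set.ncard {r | r ∈ J₀ ∧ j * h ≤ r ∧ r < (j + 1) * h} =
            ((Finset.Ico (j * h) ((j + 1) * h)).filter fun r => r ∈ J₀).card := by
          rw [← Set.ncard_coe_finset]
          congr 1
          ext s
          simp only [Finset.coe_filter, Finset.mem_Ico, Set.mem_ofPred_eq]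
          tauto
        rw [h6] at h5
        have h7 : (Finset.Ico (j₀ * h) ((j + 1) * h)).filter (fun r => r ∈ J₀) =
            (Finset.Ico (j₀ * h) (j * h)).filter (fun r => r ∈ J₀) ∪
            (Finset.Ico (j * h) ((j + 1) * h)).filter (fun r => r ∈ J₀) := by
          rw [← Finset.filter_union, Finset.Ico_union_Ico_eq_Ico (Nat.mul_le_mul_right _ hj)
            (Nat.mul_le_mul_right _ (by omega))]
        have h8 : Disjoint ((Finset.Ico (j₀ * h) (j * h)).filter (fun r => r ∈ J₀))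
            ((Finset.Ico (j * h) ((j + 1) * h)).filter (fun r => r ∈ J₀)) :=
          (Finset.Ico_disjoint_Ico_consecutive _ _ _).mono (Finset.filter_subset _ _)
            (Finset.filter_subset _ _)
        rw [h7, Finset.card_union_of_disjoint h8]
        push_cast
        linarith
    have hb := hblock j₁ hj le_rfl
    have hc : (Finset.Ico (j₀ * h) (j₁ * h)).filter (fun r => r ∈ J₀) ⊆
        (Finset.Ico α β).filter (fun r => r ∈ J₀) := by
      refine Finset.filter_subset_filter _ (Finset.Ico_subset_Ico a1.le a2)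
    have hd : ((((Finset.Ico (j₀ * h) (j₁ * h)).filter fun r => r ∈ J₀).card : ℕ) : ℝ) ≤
        (((Finset.Ico α β).filter fun r => r ∈ J₀).card : ℝ) := by
      exact_mod_cast Finset.card_le_card hc
    refine le_trans ?_ (hb.trans hd)
    have e1 : (β : ℝ) - α - 2 * h ≤ ((j₁ : ℝ) - j₀) * h := by
      have h6' : (β : ℝ) < j₁ * h + h := by exact_mod_cast a3
      have h7' : (j₀ : ℝ) * h ≤ α + h := by exact_mod_cast a4
      nlinarith
    have e2 := mul_le_mul_of_nonneg_left e1 hu.le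
    linarith
  · refine le_trans ?_ e0
    have h3 : j₁ * h + h ≤ j₀ * h := by
      have : (j₁ + 1) * h ≤ j₀ * h := Nat.mul_le_mul_right _ (by omega)
      have h4 : (j₁ + 1) * h = j₁ * h + h := by ring
      omega
    have h4 : β ≤ α + h := by omega
    have h5 : (β : ℝ) ≤ α + h := by exact_mod_cast h4
    have h6 : (0 : ℝ) ≤ h := Nat.cast_nonneg _
    have h7 : (β : ℝ) - α - 2 * h ≤ 0 := by linarith
    have h8 := mul_le_mul_of_nonneg_left h7 hu.le
    linarith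

/-- Heavy rows at the scales of the upper half. -/
theorem cnt_half (J₀ : Set ℕ) {X n h : ℕ} (h1 : 1 ≤ h) (hn : 64 * h ≤ n) {u : ℝ} (hu : 0 < u)
    (hJ : ∀ j : ℕ, (j + 2) * h ≤ X →
      u * h ≤ (Set.ncard {r | r ∈ J₀ ∧ j * h ≤ r ∧ r < (j + 1) * h} : ℝ)) {r₀ : ℤ}
    (hr0 : 0 ≤ r₀) (hr1 : r₀ + n + h ≤ X) [DecidablePred fun i : ℕ => 0 ≤ r₀ + (i : ℤ) ∧
      (r₀ + (i : ℤ)).toNat ∈ J₀] :
    u * n / 4 ≤ (((Finset.Ico (n / 2) n).filter fun i : ℕ => 0 ≤ r₀ + (i : ℤ) ∧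
      (r₀ + (i : ℤ)).toNat ∈ J₀).card : ℝ) := by
  classical
  obtain ⟨r, rfl⟩ := Int.eq_ofNat_of_zero_le hr0
  have h2 := cnt_gen J₀ h1 hu hJ (α := r + n / 2) (β := r + n) (by omega)
  have h3 : ((Finset.Ico (r + n / 2) (r + n)).filter fun r => r ∈ J₀).card ≤
      ((Finset.Ico (n / 2) n).filter fun i : ℕ => 0 ≤ (r : ℤ) + (i : ℤ) ∧
      ((r : ℤ) + (i : ℤ)).toNat ∈ J₀).card := by
    refine Finset.card_le_card_of_injOn (fun x => x - r) ?_ ?_
    · intro x hx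
      rw [Finset.mem_coe, Finset.mem_filter, Finset.mem_Ico] at hx
      rw [Finset.mem_coe, Finset.mem_filter, Finset.mem_Ico]
      show (n / 2 ≤ x - r ∧ x - r < n) ∧ 0 ≤ (r : ℤ) + ((x - r : ℕ) : ℤ) ∧
        ((r : ℤ) + ((x - r : ℕ) : ℤ)).toNat ∈ J₀
      have h5 : ((r : ℤ) + ((x - r : ℕ) : ℤ)).toNat = x := by omega
      rw [h5]
      exact ⟨⟨by omega, by omega⟩, by omega, hx.2⟩
    · intro x hx y hy hxy
      rw [Finset.mem_coe, Finset.mem_filter, Finset.mem_Ico] at hx hy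
      simp only at hxy
      omega
  have h4 : (((Finset.Ico (r + n / 2) (r + n)).filter fun r => r ∈ J₀).card : ℝ) ≤
      (((Finset.Ico (n / 2) n).filter fun i : ℕ => 0 ≤ (r : ℤ) + (i : ℤ) ∧
      ((r : ℤ) + (i : ℤ)).toNat ∈ J₀).card : ℝ) := by exact_mod_cast h3
  refine le_trans ?_ (h2.trans h4)
  have h5 : (64 : ℝ) * h ≤ n := by exact_mod_cast hn
  have h6 : 2 * (n / 2) ≤ n := Nat.mul_div_le n 2
  have h7 : (2 : ℝ) * ((n / 2 : ℕ) : ℝ) ≤ n := by exact_mod_cast h6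
  push_cast

  have h8 : (n : ℝ) / 4 ≤ ((r : ℝ) + n) - (r + ((n / 2 : ℕ) : ℝ)) - 2 * h := by
    push_cast
    linarith
  have h9 := mul_le_mul_of_nonneg_left h8 hu.le

  linarith

/-- Samples without a good partner are rare. -/
theorem rare2 {Ω V : Type} [Fintype Ω] [Fintype V] {p : Ω → ℝ} (hp : ∀ ω, 0 ≤ p ω) (I : Finset ℕ)
    (κ : ℕ → Ω → V → ℝ) (hκ : ∀ i ω v, 0 ≤ κ i ω v) (W : ℕ → Ω → Set V) (far : ℕ → Ω → V → ℝ)
    (hfar : ∀ i ω v, 0 ≤ far i ω v) (Gd : Set Ω) {u ε ρ : ℝ} (hu : 0 < u) (hε : 0 < ε)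
    (hden : ∀ ω ∈ Gd, 0 < p ω →
      u ≤ ∑ i ∈ I, ∑ v, κ i ω v * (W i ω).indicator (fun _ => (1 : ℝ)) v)
    (hrow : ∑ i ∈ I, ∑ ω, p ω * ∑ v, κ i ω v * (W i ω).indicator (far i ω) v ≤ ρ) :
    Pr p {ω | ω ∈ Gd ∧ ¬ ∃ i ∈ I, ∃ v ∈ W i ω, 0 < κ i ω v ∧ far i ω v ≤ ε} ≤ ρ / (ε * u) := by
  classical
  rw [le_div_iff₀ (by positivity), Pool.KAF.Pr_eq, Finset.sum_mul]
  rw [Finset.sum_comm] at hrow
  refine le_trans (Finset.sum_le_sum fun ω _ => ?_) hrow
  rw [← Finset.mul_sum]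
  rcases (hp ω).eq_or_lt with h0 | h0
  · rw [← h0, ite_self, zero_mul, zero_mul]
  have hnn : 0 ≤ ∑ i ∈ I, ∑ v, κ i ω v * (W i ω).indicator (far i ω) v :=
    Finset.sum_nonneg fun i _ => Finset.sum_nonneg fun v _ =>
      mul_nonneg (hκ i ω v) (Set.indicator_nonneg (fun v _ => hfar i ω v) v)
  by_cases hω : ω ∈ {ω | ω ∈ Gd ∧ ¬ ∃ i ∈ I, ∃ v ∈ W i ω, 0 < κ i ω v ∧ far i ω v ≤ ε}
  · rw [if_pos hω]
    refine mul_le_mul_of_nonneg_left ?_ h0.le
    have h1 := hden ω hω.1 h0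
    calc ε * u ≤ ε * ∑ i ∈ I, ∑ v, κ i ω v * (W i ω).indicator (fun _ => (1 : ℝ)) v :=
          mul_le_mul_of_nonneg_left h1 hε.le
      _ ≤ ∑ i ∈ I, ∑ v, κ i ω v * (W i ω).indicator (far i ω) v := by
        rw [Finset.mul_sum]
        refine Finset.sum_le_sum fun i hi => ?_
        rw [Finset.mul_sum]
        refine Finset.sum_le_sum fun v _ => ?_
        rcases (hκ i ω v).eq_or_lt with h2 | h2
        · rw [← h2, zero_mul, zero_mul, mul_zero]
        by_cases hv : v ∈ W i ω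
        · rw [Set.indicator_of_mem hv, Set.indicator_of_mem hv, mul_one, mul_comm]
          refine mul_le_mul_of_nonneg_left ?_ h2.le
          by_contra h3
          exact hω.2 ⟨i, hi, v, hv, h2, (not_le.1 h3).le⟩
        · rw [Set.indicator_of_notMem hv, Set.indicator_of_notMem hv, mul_zero, mul_zero]
  · rw [if_neg hω, zero_mul]
    exact mul_nonneg h0.le hnn

end Pool.OC.FN
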