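import Pool.Agent.H64.OC.FinB

/-!
# OC, the final contradiction: partners
-/

set_option autoImplicit false

namespace Pool.OC.FN

open Finset Real
open Pool.Agent.H49.Ent Pool.Agent.H32.Dense Pool.STK Pool.KAF Pool.OC

/-- The law of the partner of a sample at the scale `i`. -/
noncomputable def kp (d : Dat) (i : ℕ) (ω v : d.Om) : ℝ :=
  cond d.P (fun x => (d.L x, d.Ti i x)) (d.L ω, d.Ti i ω) v

theorem kp_nonneg {d : Dat} (hP : IsLaw d.P) (i : ℕ) (ω v : d.Om) : 0 ≤ kp d i ω v :=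
  cond_nonneg hP.nonneg _ _ v

theorem kp_sum {d : Dat} (hP : IsLaw d.P) (i : ℕ) {ω : d.Om} (hω : 0 < d.P ω) :
    ∑ v, kp d i ω v = 1 :=
  sum_cond d.P _ (law_pos hP.nonneg (fun x => (d.L x, d.Ti i x)) hω).ne'

theorem kp_pos {d : Dat} (hP : IsLaw d.P) {i : ℕ} {ω v : d.Om} (h : 0 < kp d i ω v) :
    0 < d.P v ∧ d.L v = d.L ω ∧ d.Ti i v = d.Ti i ω := by
  obtain ⟨h1, h2⟩ := (cond_pos_iff hP.nonneg _ _ v).1 h
  simp only [Prod.mk.injEq] at h2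
  exact ⟨h1, h2.1, h2.2⟩

theorem Q3_eq {d : Dat} (hP : IsLaw d.P) (i : ℕ) (w : d.Om × d.Om) (v : d.Om) :
    d.Q3 i (w, v) = d.Qp 0 w * kp d i w.1 v := by
  classical
  have h1 : law (d.Qp 0) (fun w => (d.L w.1, d.Ti i w.1)) (d.L w.1, d.Ti i w.1) =
      law d.P (fun x => (d.L x, d.Ti i x)) (d.L w.1, d.Ti i w.1) :=
    (dbl_fst hP.nonneg).law (fun x => (d.L x, d.Ti i x)) _
  unfold Dat.Q3 glue kp Pool.Agent.H49.Ent.cond
  simp only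
  rw [h1]
  by_cases h : (d.L w.1, d.Ti i w.1) = (d.L v, d.Ti i v)
  · rw [if_pos h, if_pos h.symm]
    ring
  · rw [if_neg h, if_neg (Ne.symm h), mul_zero]

theorem Q3'_eq {d : Dat} (hP : IsLaw d.P) (i : ℕ) (w : d.Om × d.Om) (v : d.Om) :
    d.Q3' i (w, v) = d.Qp 0 w * kp d i w.2 v := by
  classical
  have h1 : law (d.Qp 0) (fun w => (d.L w.2, d.Ti i w.2)) (d.L w.2, d.Ti i w.2) =
      law d.P (fun x => (d.L x, d.Ti i x)) (d.L w.2, d.Ti i w.2) :=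
    (dbl_snd hP.nonneg).law (fun x => (d.L x, d.Ti i x)) _
  unfold Dat.Q3' glue kp Pool.Agent.H49.Ent.cond
  simp only
  rw [h1]
  by_cases h : (d.L w.2, d.Ti i w.2) = (d.L v, d.Ti i v)
  · rw [if_pos h, if_pos h.symm]
    ring
  · rw [if_neg h, if_neg (Ne.symm h), mul_zero]

/-- Markov's inequality. -/
theorem markov {Ω : Type} [Fintype Ω] {p : Ω → ℝ} (hp : ∀ ω, 0 ≤ p ω) (f : Ω → ℝ)
    (hf : ∀ ω, 0 ≤ f ω) {t : ℝ} (ht : 0 < t) : Pr p {ω | t < f ω} ≤ Ex p f / t := by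
  classical
  rw [le_div_iff₀ ht, Pr_eq, Finset.sum_mul]
  unfold Ex
  refine Finset.sum_le_sum fun ω _ => ?_
  by_cases h : ω ∈ {ω | t < f ω}
  · rw [if_pos h]
    exact mul_le_mul_of_nonneg_left (le_of_lt h) (hp ω)
  · rw [if_neg h, zero_mul]
    exact mul_nonneg (hp ω) (hf ω)

theorem Pr_cond_le_one {Ω T : Type} [Fintype Ω] {p : Ω → ℝ} (hp : ∀ ω, 0 ≤ p ω) (b : Ω → T) {ω : Ω}
    (hω : 0 < p ω) (E : Set Ω) : Pr (cond p b (b ω)) E ≤ 1 := by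
  classical
  rw [Pr_eq, ← sum_cond p b (law_pos hp b hω).ne']
  refine Finset.sum_le_sum fun v _ => ?_
  split_ifs
  · exact le_rfl
  · exact cond_nonneg hp b _ v

theorem Qp_pos {d : Dat} (hP : IsLaw d.P) {i : ℕ} {w : d.Om × d.Om} (h : 0 < d.Qp i w) :
    0 < d.P w.1 ∧ 0 < d.P w.2 ∧ d.L w.1 = d.L w.2 ∧ d.Ti i w.1 = d.Ti i w.2 := by
  have h' : 0 < dbl d.P (fun ω => (d.L ω, d.Ti i ω)) w := h
  obtain ⟨h1, h2, h3⟩ := (glue_pos_iff hP.nonneg hP.nonneg w).1 h'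
  simp only [Prod.mk.injEq] at h3
  exact ⟨h1, h2, h3.1, h3.2⟩

/-- Equal digits of the times. -/
theorem Ti_close {d : Dat} {i : ℕ} {ω v : d.Om} (h : d.Ti i v = d.Ti i ω) :
    |d.ta (ω, v)| ≤ (2 : ℝ) ^ (-(i : ℤ)) := by
  have h1 := Int.abs_sub_lt_one_of_floor_eq_floor h
  rw [← mul_sub, abs_mul, abs_of_pos (by positivity : (0 : ℝ) < 2 ^ i)] at h1
  rw [zpow_neg, zpow_natCast, ← one_div, le_div_iff₀ (by positivity), mul_comm]
  exact h1.le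

/-- The samples with many light blocks. -/
def Gb (d : Dat) (J : d.Om → Set ℕ) (h : ℕ) (u : ℝ) : Set d.Om :=
  {ω | ∃ j : ℕ, (j + 2) * h ≤ d.X ∧
    (Set.ncard {r | r ∈ J ω ∧ j * h ≤ r ∧ r < (j + 1) * h} : ℝ) < u * h}

/-- The bad pairs at the scale `i`. -/
def Bd (d : Dat) (m : d.Lam → ℤ) (n a k₅ k' : ℕ) (Λ : d.Om → ℝ) (i : ℕ) : Set (d.Om × d.Om) :=
  ({w | (2 : ℝ) ^ (-(4 * n : ℤ)) ≤ |d.ta w| ∧
    (2 : ℝ) ^ ((a : ℤ) + 4 - m (d.L w.1)) * |d.ta w| < |d.sg w|} ∪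
  {w | (2 : ℝ) ^ (-(m (d.L w.1) + k₅)) * |d.ta w| < |d.sg w - Λ w.1 * d.ta w|}) ∪
  {w | |d.ta w| < (2 : ℝ) ^ (-((i : ℤ) + k'))}

/-- The mean number of the bad partners. -/
noncomputable def Bs (d : Dat) (B : ℕ → Set (d.Om × d.Om)) (n : ℕ) (ω : d.Om) : ℝ :=
  ∑ i ∈ Finset.Ico (n / 2) n, ∑ v, kp d i ω v * {v | (ω, v) ∈ B i}.indicator (fun _ => (1 : ℝ)) v

theorem Bs_nonneg {d : Dat} (hP : IsLaw d.P) (B : ℕ → Set (d.Om × d.Om)) (n : ℕ) (ω : d.Om) :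
    0 ≤ Bs d B n ω :=
  Finset.sum_nonneg fun i _ => Finset.sum_nonneg fun v _ => mul_nonneg (kp_nonneg hP i ω v)
    (Set.indicator_nonneg (fun _ _ => zero_le_one) _)

theorem Bs_Ex {d : Dat} (B : ℕ → Set (d.Om × d.Om)) (n : ℕ) :
    Ex d.P (Bs d B n) = ∑ i ∈ Finset.Ico (n / 2) n, Pr (d.Qp i) (B i) := by
  classical
  unfold Ex Bs
  simp_rw [Finset.mul_sum]
  rw [Finset.sum_comm]
  refine Finset.sum_congr rfl fun i _ => ?_
  unfold Dat.Qp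
  rw [Pr_dbl]
  unfold Ex
  refine Finset.sum_congr rfl fun ω _ => ?_
  show _ = d.P ω * Pr (Pool.Agent.H49.Ent.cond d.P (fun ω => (d.L ω, d.Ti i ω))
    (d.L ω, d.Ti i ω)) {v | (ω, v) ∈ B i}
  rw [Pr_eq, Finset.mul_sum]
  refine Finset.sum_congr rfl fun v _ => ?_
  by_cases h : v ∈ {v | (ω, v) ∈ B i}
  · rw [if_pos h, Set.indicator_of_mem h, mul_one]
    rfl
  · rw [if_neg h, Set.indicator_of_notMem h, mul_zero]

theorem Bs_le {d : Dat} (hP : IsLaw d.P) {m : d.Lam → ℤ} {n a k₅ k' : ℕ} {Λ : d.Om → ℝ} {ε : ℝ}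
    (hε : 0 ≤ ε) (hn : 8 ≤ n) (hnX : n ≤ d.X) (h1 : NLC d m n a ε) (h2 : AGR d m n k₅ Λ ε)
    (h3 : TB d n k' ε) : Ex d.P (Bs d (Bd d m n a k₅ k' Λ) n) ≤ 3 * ε * n := by
  rw [Bs_Ex]
  have hQ0 : ∀ i w, 0 ≤ d.Qp i w := fun i w => dbl_nonneg hP.nonneg w
  have h4 : ∀ i ∈ Finset.Ico (n / 2) n, Pr (d.Qp i) (Bd d m n a k₅ k' Λ i) ≤
      2 * ε + Pr (d.Qp i) {w | |d.ta w| < (2 : ℝ) ^ (-((i : ℤ) + k'))} := by
    intro i hi
    rw [Finset.mem_Ico] at hi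
    refine (Pr_union_le (hQ0 i) _ _).trans ?_
    have h5 := Pr_union_le (hQ0 i) {w | (2 : ℝ) ^ (-(4 * n : ℤ)) ≤ |d.ta w| ∧
      (2 : ℝ) ^ ((a : ℤ) + 4 - m (d.L w.1)) * |d.ta w| < |d.sg w|}
      {w | (2 : ℝ) ^ (-(m (d.L w.1) + k₅)) * |d.ta w| < |d.sg w - Λ w.1 * d.ta w|}
    have h6 := h1 i (by omega)
    have h7 := h2 i (by omega)
    linarith
  refine (Finset.sum_le_sum h4).trans ?_
  rw [Finset.sum_add_distrib, Finset.sum_const, Nat.card_Ico, nsmul_eq_mul]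
  have h5 := h3 (n / 2) n (by omega) hnX
  have h6 : ((n - n / 2 : ℕ) : ℝ) ≤ n := by
    exact_mod_cast Nat.sub_le n (n / 2)
  have h7 : (0 : ℝ) ≤ ((n / 2 : ℕ) : ℝ) := Nat.cast_nonneg _
  have h8 := mul_le_mul_of_nonneg_right h6 (by positivity : 0 ≤ 2 * ε)
  have h9 := mul_nonneg hε h7
  linarith

/-- The good partners of `ω` for the depth `s`. -/
def Gp (d : Dat) (J : d.Om → Set ℕ) (m : d.Lam → ℤ) (B : ℕ → Set (d.Om × d.Om)) (s i : ℕ)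
    (ω : d.Om) : Set d.Om :=
  {v | (ω, v) ∉ B i ∧ 0 < kp d i ω v ∧ 0 ≤ (s : ℤ) + (m (d.L ω) + i) ∧
    ((s : ℤ) + (m (d.L ω) + i)).toNat ∈ J ω}

/-- A good sample has many good partners. -/
theorem dens {d : Dat} (hP : IsLaw d.P) {J : d.Om → Set ℕ} {m : d.Lam → ℤ} {n h : ℕ} {u : ℝ}
    (hS : Siz d n h m) (hu : 0 < u) (B : ℕ → Set (d.Om × d.Om)) {ω : d.Om} (hω : 0 < d.P ω)
    (h1 : ω ∉ Gb d J h u) (h2 : Bs d B n ω ≤ u * n / 8) {s : ℕ}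
    (hs : s ∈ Finset.Ico (8 * n) (d.X - 8 * n)) :
    u * n / 8 ≤ ∑ i ∈ Finset.Ico (n / 2) n,
      ∑ v, kp d i ω v * (Gp d J m B s i ω).indicator (fun _ => (1 : ℝ)) v := by
  classical
  rw [Finset.mem_Ico] at hs
  have hm1 := hS.m1 (d.L ω)
  have hm2 := hS.m2 (d.L ω)
  have hhn := hS.hn
  have hnX := hS.nX
  have h3 := cnt_half (J ω) (X := d.X) hS.h1 hS.hn hu (fun j hj => by
    by_contra hcon
    exact h1 ⟨j, hj, not_le.1 hcon⟩) (r₀ := (s : ℤ) + m (d.L ω)) (by omega) (by omega)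
  set F := (Finset.Ico (n / 2) n).filter fun i : ℕ => 0 ≤ (s : ℤ) + m (d.L ω) + (i : ℤ) ∧
      ((s : ℤ) + m (d.L ω) + (i : ℤ)).toNat ∈ J ω with hF
  have h4 : (F.card : ℝ) ≤ ∑ i ∈ F, (∑ v, kp d i ω v *
      (Gp d J m B s i ω).indicator (fun _ => (1 : ℝ)) v +
      ∑ v, kp d i ω v * {v | (ω, v) ∈ B i}.indicator (fun _ => (1 : ℝ)) v) := by
    rw [Finset.card_eq_sum_ones]
    push_cast
    refine Finset.sum_le_sum fun i hi => ?_
    rw [hF, Finset.mem_filter] at hi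
    refine (kp_sum hP i hω).ge.trans ?_
    rw [← Finset.sum_add_distrib]
    refine Finset.sum_le_sum fun v _ => ?_
    rcases (kp_nonneg hP i ω v).eq_or_lt with h0 | h0
    · rw [← h0, zero_mul, zero_mul, add_zero]
    by_cases hv : (ω, v) ∈ B i
    · rw [Set.indicator_of_mem (show v ∈ {v | (ω, v) ∈ B i} from hv), mul_one]
      have h5 : 0 ≤ kp d i ω v * (Gp d J m B s i ω).indicator (fun _ => (1 : ℝ)) v :=
        mul_nonneg h0.le (Set.indicator_nonneg (fun _ _ => zero_le_one) _)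
      linarith
    · have h5 : v ∈ Gp d J m B s i ω := by
        refine ⟨hv, h0, ?_⟩
        rw [← add_assoc]
        exact hi.2
      rw [Set.indicator_of_mem h5, mul_one]
      have h6 : 0 ≤ kp d i ω v * {v | (ω, v) ∈ B i}.indicator (fun _ => (1 : ℝ)) v :=
        mul_nonneg h0.le (Set.indicator_nonneg (fun _ _ => zero_le_one) _)
      linarith
  rw [Finset.sum_add_distrib] at h4
  have h5 : ∑ i ∈ F, ∑ v, kp d i ω v * (Gp d J m B s i ω).indicator (fun _ => (1 : ℝ)) v ≤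
      ∑ i ∈ Finset.Ico (n / 2) n,
        ∑ v, kp d i ω v * (Gp d J m B s i ω).indicator (fun _ => (1 : ℝ)) v :=
    Finset.sum_le_sum_of_subset_of_nonneg (Finset.filter_subset _ _) fun i _ _ =>
      Finset.sum_nonneg fun v _ => mul_nonneg (kp_nonneg hP i ω v)
        (Set.indicator_nonneg (fun _ _ => zero_le_one) _)
  have h6 : ∑ i ∈ F, ∑ v, kp d i ω v * {v | (ω, v) ∈ B i}.indicator (fun _ => (1 : ℝ)) v ≤
      Bs d B n ω :=
    Finset.sum_le_sum_of_subset_of_nonneg (Finset.filter_subset _ _) fun i _ _ =>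
      Finset.sum_nonneg fun v _ => mul_nonneg (kp_nonneg hP i ω v)
        (Set.indicator_nonneg (fun _ _ => zero_le_one) _)
  linarith

end Pool.OC.FN
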