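import Pool.Agent.H64.OC.FinC

/-!
# OC, the final contradiction: the rows
-/

set_option autoImplicit false

namespace Pool.OC.FN

open Finset Real
open Pool.Agent.H49.Ent Pool.Agent.H32.Dense Pool.STK Pool.KAF Pool.OC

/-- The form of the partner `v` of the first sample is not constant. -/
def E1 (d : Dat) (m : d.Lam → ℤ) (s i k₁ : ℕ) (w : d.Om × d.Om) (v : d.Om) :
    Set (d.Om × d.Om) :=
  {z | (2 : ℝ) ^ (-((s : ℤ) + (m (d.L w.1) + i) + k₁)) ≤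
    |d.ZR (d.T w.1) (d.T v) (d.L w.1) - d.ZR (d.T w.1) (d.T v) (d.L z.1)|}

/-- The form of the partner `v` of the second sample is not constant. -/
def E2 (d : Dat) (m : d.Lam → ℤ) (s i k₁ : ℕ) (w : d.Om × d.Om) (v : d.Om) :
    Set (d.Om × d.Om) :=
  {z | (2 : ℝ) ^ (-((s : ℤ) + (m (d.L w.1) + i) + k₁)) ≤
    |d.ZR (d.T w.2) (d.T v) (d.L w.1) - d.ZR (d.T w.2) (d.T v) (d.L z.1)|}

/-- The admissible times, base = first sample. -/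
def A1 (d : Dat) (a k' i : ℕ) : Set (ℤ × d.Tau × d.Tau × d.Tau) :=
  {x | |d.th x.2.2.2 - d.th x.2.1| ≤ (2 : ℝ) ^ (-(i : ℤ)) ∧
    (2 : ℝ) ^ (-((i : ℤ) + k')) ≤ |d.th x.2.2.2 - d.th x.2.1| ∧
    |d.S x.2.2.2 - d.S x.2.1| ≤ (2 : ℝ) ^ ((a : ℤ) + 4 - x.1) * |d.th x.2.2.2 - d.th x.2.1| ∧
    4 * |d.th x.2.2.2 - d.th x.2.1| ≤ |d.th x.2.2.1 - d.th x.2.1|}

/-- The admissible times, base = second sample. -/
def A2 (d : Dat) (a k' i : ℕ) : Set (ℤ × d.Tau × d.Tau × d.Tau) :=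
  {x | (|d.th x.2.2.2 - d.th x.2.2.1| ≤ (2 : ℝ) ^ (-(i : ℤ)) ∧
    (2 : ℝ) ^ (-((i : ℤ) + k')) ≤ |d.th x.2.2.2 - d.th x.2.2.1| ∧
    |d.S x.2.2.2 - d.S x.2.2.1| ≤ (2 : ℝ) ^ ((a : ℤ) + 4 - x.1) *
      |d.th x.2.2.2 - d.th x.2.2.1| ∧
    4 * |d.th x.2.2.2 - d.th x.2.2.1| ≤ |d.th x.2.2.1 - d.th x.2.1|) ∧
    |d.S x.2.2.1 - d.S x.2.1| ≤ (2 : ℝ) ^ ((a : ℤ) + 4 - x.1) * |d.th x.2.2.1 - d.th x.2.1|}

theorem ta_ne {x y : ℝ} {i : ℤ} (h : (2 : ℝ) ^ (-i) ≤ |x|) (h' : 4 * |x| ≤ |y|) : y ≠ 0 := by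
  have h1 : (0 : ℝ) < (2 : ℝ) ^ (-i) := by positivity
  have h2 : 0 < |y| := by linarith
  exact abs_pos.1 h2

theorem hyp1 (d : Dat) (m : d.Lam → ℤ) {a k k' i s : ℕ} (hk : a + 12 ≤ k)
    {w : (d.Om × d.Om) × d.Om} {v : d.Om × d.Om}
    (hw : (m (d.L w.1.1), d.T w.1.1, d.T w.1.2, d.T w.2) ∈ A1 d a k' i)
    (hG : d.LB m s v = d.LB m s w.1) :
    |d.ZR (d.T w.1.1) (d.T w.2) (d.L w.1.1) - d.ZR (d.T w.1.1) (d.T w.2) (d.L v.1)| ≤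
      (2 : ℝ) ^ ((k : ℤ) - (s + (m (d.L w.1.1) + i))) := by
  obtain ⟨-, -, -, ho, hy, hb⟩ := LB_spec d m hG
  obtain ⟨h1, h2, h3, h4⟩ := hw
  simp only at h1 h2 h3 h4
  rw [ZR_sub]
  exact size_one hk h1 h3 h4 (sc_spec (ta_ne h2 h4)).2.le ho hy hb

theorem hyp2 (d : Dat) (m : d.Lam → ℤ) {a k k' i s : ℕ} (hk : a + 12 ≤ k)
    {w : (d.Om × d.Om) × d.Om} {v : d.Om × d.Om}
    (hw : (m (d.L w.1.1), d.T w.1.1, d.T w.1.2, d.T w.2) ∈ A2 d a k' i)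
    (hG : d.LB m s v = d.LB m s w.1) :
    |d.ZR (d.T w.1.2) (d.T w.2) (d.L w.1.1) - d.ZR (d.T w.1.2) (d.T w.2) (d.L v.1)| ≤
      (2 : ℝ) ^ ((k : ℤ) - (s + (m (d.L w.1.1) + i))) := by
  obtain ⟨-, -, -, ho, hy, hb⟩ := LB_spec d m hG
  obtain ⟨⟨h1, h2, h3, h4⟩, h5⟩ := hw
  simp only at h1 h2 h3 h4 h5
  rw [ZR_sub' d (d.T w.1.1)]
  exact size_two hk h1 h3 h5 h4 (sc_spec (ta_ne h2 h4)).2.le ho hy hb

theorem Ex_prod {Ω V : Type} [Fintype Ω] [Fintype V] (p : Ω × V → ℝ) (f : Ω × V → ℝ) :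
    Ex p f = ∑ w, ∑ v, p (w, v) * f (w, v) := by
  unfold Ex
  exact Fintype.sum_prod_type _

/-- RowB for the good partners of the first sample. -/
theorem row1 {d : Dat} (hP : IsLaw d.P) {J : d.Om → Set ℕ} {m : d.Lam → ℤ}
    {n k k₁ a k' : ℕ} {e : ℝ} (hk : a + 12 ≤ k) (hRow : RowB d J m n k k₁ e)
    (Gd : Set (d.Om × d.Om)) (B : ℕ → Set (d.Om × d.Om))
    (hGA : ∀ w ∈ Gd, 0 < d.Qp 0 w → ∀ i ∈ Finset.Ico (n / 2) n, ∀ v, 0 < kp d i w.1 v →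
      (w.1, v) ∉ B i → (m (d.L w.1), d.T w.1, d.T w.2, d.T v) ∈ A1 d a k' i) :
    ∑ s ∈ Finset.Ico (8 * n) (d.X - 8 * n), ∑ i ∈ Finset.Ico (n / 2) n, ∑ w, d.Qp 0 w *
      ∑ v, kp d i w.1 v * ({v | w ∈ Gd ∧ v ∈ Gp d J m B s i w.1}).indicator
        (fun v => Pr (cond (d.Qp 0) (d.LB m s) (d.LB m s w)) (E1 d m s i k₁ w v)) v ≤
      ((n - n / 2 : ℕ) : ℝ) * (e * d.X) := by
  classical
  have hQ0 : ∀ w, 0 ≤ d.Qp 0 w := fun w => dbl_nonneg hP.nonneg w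
  rw [Finset.sum_comm, ← Nat.card_Ico (n / 2) n, ← nsmul_eq_mul]
  apply Finset.sum_le_card_nsmul
  intro i hi
  have hi' := Finset.mem_Ico.1 hi
  refine le_trans ?_ (hRow i (by omega) (fun m _ _ _ => m + i) (A1 d a k' i) (by
    intro w v s _ _ hw _ hG
    exact hyp1 d m hk hw hG))
  refine Finset.sum_le_sum fun s _ => ?_
  rw [Ex_prod]
  refine Finset.sum_le_sum fun w _ => ?_
  rw [Finset.mul_sum]
  refine Finset.sum_le_sum fun v _ => ?_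
  rw [Q3_eq hP, ← mul_assoc]
  rcases (mul_nonneg (hQ0 w) (kp_nonneg hP i w.1 v)).eq_or_lt with h0 | h0
  · rw [← h0, zero_mul, zero_mul]
  refine mul_le_mul_of_nonneg_left ?_ h0.le
  have hw0 : 0 < d.Qp 0 w := by
    by_contra hcon
    have h1 : d.Qp 0 w = 0 := le_antisymm (not_lt.1 hcon) (hQ0 w)
    rw [h1, zero_mul] at h0
    exact lt_irrefl _ h0
  have hnn : 0 ≤ Pr (cond (d.Qp 0) (d.LB m s) (d.LB m s w)) (E1 d m s i k₁ w v) :=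
    Pr_nonneg (cond_nonneg hQ0 _ _) _
  by_cases hv : v ∈ {v | w ∈ Gd ∧ v ∈ Gp d J m B s i w.1}
  · rw [Set.indicator_of_mem hv]
    obtain ⟨g1, g2, g3, g4, g5⟩ := hv
    rw [Set.indicator_of_mem]
    · exact le_rfl
    · exact ⟨hGA w g1 hw0 i hi v g3 g2, g4, g5⟩
  · rw [Set.indicator_of_notMem hv]
    refine Set.indicator_nonneg (fun x _ => ?_) _
    exact Pr_nonneg (cond_nonneg hQ0 _ _) _

/-- RowB' for the good partners of the second sample. -/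
theorem row2 {d : Dat} (hP : IsLaw d.P) {J : d.Om → Set ℕ} {m : d.Lam → ℤ}
    {n k k₁ a k' : ℕ} {e : ℝ} (hk : a + 12 ≤ k) (hRow : RowB' d J m n k k₁ e)
    (Gd : Set (d.Om × d.Om)) (B : ℕ → Set (d.Om × d.Om))
    (hGA : ∀ w ∈ Gd, 0 < d.Qp 0 w → ∀ i ∈ Finset.Ico (n / 2) n, ∀ v, 0 < kp d i w.2 v →
      (w.2, v) ∉ B i → (m (d.L w.1), d.T w.1, d.T w.2, d.T v) ∈ A2 d a k' i) :
    ∑ s ∈ Finset.Ico (8 * n) (d.X - 8 * n), ∑ i ∈ Finset.Ico (n / 2) n, ∑ w, d.Qp 0 w *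
      ∑ v, kp d i w.2 v * ({v | w ∈ Gd ∧ v ∈ Gp d J m B s i w.2}).indicator
        (fun v => Pr (cond (d.Qp 0) (d.LB m s) (d.LB m s w)) (E2 d m s i k₁ w v)) v ≤
      ((n - n / 2 : ℕ) : ℝ) * (e * d.X) := by
  classical
  have hQ0 : ∀ w, 0 ≤ d.Qp 0 w := fun w => dbl_nonneg hP.nonneg w
  rw [Finset.sum_comm, ← Nat.card_Ico (n / 2) n, ← nsmul_eq_mul]
  apply Finset.sum_le_card_nsmul
  intro i hi
  have hi' := Finset.mem_Ico.1 hi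
  refine le_trans ?_ (hRow i (by omega) (fun m _ _ _ => m + i) (A2 d a k' i) (by
    intro w v s _ _ hw _ hG
    exact hyp2 d m hk hw hG))
  refine Finset.sum_le_sum fun s _ => ?_
  rw [Ex_prod]
  refine Finset.sum_le_sum fun w _ => ?_
  rw [Finset.mul_sum]
  refine Finset.sum_le_sum fun v _ => ?_
  rw [Q3'_eq hP, ← mul_assoc]
  rcases (mul_nonneg (hQ0 w) (kp_nonneg hP i w.2 v)).eq_or_lt with h0 | h0
  · rw [← h0, zero_mul, zero_mul]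
  refine mul_le_mul_of_nonneg_left ?_ h0.le
  have hw0 : 0 < d.Qp 0 w := by
    by_contra hcon
    have h1 : d.Qp 0 w = 0 := le_antisymm (not_lt.1 hcon) (hQ0 w)
    rw [h1, zero_mul] at h0
    exact lt_irrefl _ h0
  have hL : d.L w.1 = d.L w.2 := (Qp_pos hP hw0).2.2.1
  by_cases hv : v ∈ {v | w ∈ Gd ∧ v ∈ Gp d J m B s i w.2}
  · rw [Set.indicator_of_mem hv]
    obtain ⟨g1, g2, g3, g4, g5⟩ := hv
    rw [Set.indicator_of_mem]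
    · exact le_rfl
    · rw [← hL] at g4 g5
      exact ⟨hGA w g1 hw0 i hi v g3 g2, g4, g5⟩
  · rw [Set.indicator_of_notMem hv]
    refine Set.indicator_nonneg (fun x _ => ?_) _
    exact Pr_nonneg (cond_nonneg hQ0 _ _) _

/-- Two almost determined forms and an active velocity exclude each other. -/
theorem final_pt (d : Dat) (m : d.Lam → ℤ) {Λ : d.Om → ℝ} {w z : d.Om × d.Om} {v v' : d.Om}
    {i i' s b k' k₁ : ℕ} (hk₁ : b + 6 + k' ≤ k₁) (hLB : d.LB m s z = d.LB m s w)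
    (h1 : (2 : ℝ) ^ (-((i : ℤ) + k')) ≤ |d.ta (w.1, v)|) (h1' : 4 * |d.ta (w.1, v)| ≤ |d.ta w|)
    (h2 : (2 : ℝ) ^ (-((i' : ℤ) + k')) ≤ |d.ta (w.2, v')|)
    (h2' : 4 * |d.ta (w.2, v')| ≤ |d.ta w|)
    (a1 : |d.sg (w.1, v) - Λ w.1 * d.ta (w.1, v)| ≤
      (2 : ℝ) ^ (-(m (d.L w.1) + ((b + 6 : ℕ) : ℤ))) * |d.ta (w.1, v)|)
    (a2 : |d.sg (w.2, v') - Λ w.2 * d.ta (w.2, v')| ≤
      (2 : ℝ) ^ (-(m (d.L w.1) + ((b + 6 : ℕ) : ℤ))) * |d.ta (w.2, v')|)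
    (a3 : |d.sg w - Λ w.1 * d.ta w| ≤
      (2 : ℝ) ^ (-(m (d.L w.1) + ((b + 6 : ℕ) : ℤ))) * |d.ta w|)
    (a4 : |d.sg w - Λ w.2 * d.ta w| ≤
      (2 : ℝ) ^ (-(m (d.L w.1) + ((b + 6 : ℕ) : ℤ))) * |d.ta w|)
    (hΛ : (2 : ℝ) ^ (-m (d.L w.1) - 2) ≤ |Λ w.1|)
    (hE1 : z ∉ E1 d m s i k₁ w v) (hE2 : z ∉ E2 d m s i' k₁ w v')
    (ho : (2 : ℝ) ^ (-((s : ℤ) - sc (d.ta w) + b)) ≤
      |d.omR (d.L w.1) - d.omR (d.L z.1)|) : False := by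
  obtain ⟨-, -, -, -, hy, -⟩ := LB_spec d m hLB
  have hρ : ∀ (j : ℕ) (x : ℝ), (2 : ℝ) ^ (-((j : ℤ) + k')) ≤ |x| →
      (2 : ℝ) ^ (-((s : ℤ) + (m (d.L w.1) + j) + k₁)) ≤
        (2 : ℝ) ^ (-((s : ℤ) + m (d.L w.1) + k₁ - k')) * |x| := by
    intro j x hx
    refine le_trans (le_of_eq ?_) (mul_le_mul_of_nonneg_left hx (by positivity))
    rw [← zpow_add₀ (by norm_num)]
    congr 1
    ring
  have e1 : |d.ZR (d.T w.1) (d.T v) (d.L w.1) - d.ZR (d.T w.1) (d.T v) (d.L z.1)| ≤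
      (2 : ℝ) ^ (-((s : ℤ) + m (d.L w.1) + k₁ - k')) * |d.ta (w.1, v)| :=
    (not_le.1 hE1).le.trans (hρ i _ h1)
  have e2 : |d.ZR (d.T w.2) (d.T v') (d.L w.1) - d.ZR (d.T w.2) (d.T v') (d.L z.1)| ≤
      (2 : ℝ) ^ (-((s : ℤ) + m (d.L w.1) + k₁ - k')) * |d.ta (w.2, v')| :=
    (not_le.1 hE2).le.trans (hρ i' _ h2)
  rw [ZR_sub] at e1
  rw [ZR_sub' d (d.T w.1)] at e2
  have p1 : 0 < |d.ta (w.1, v)| := lt_of_lt_of_le (by positivity) h1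
  have p2 : 0 < |d.ta (w.2, v')| := lt_of_lt_of_le (by positivity) h2
  have hη : 16 * (2 : ℝ) ^ (-(m (d.L w.1) + ((b + 6 : ℕ) : ℤ))) ≤ |Λ w.1| := by
    refine le_trans ?_ hΛ
    have h3 : (16 : ℝ) = (2 : ℝ) ^ (4 : ℤ) := by norm_num
    rw [h3, ← zpow_add₀ (by norm_num)]
    refine zpow_le_zpow_right₀ (by norm_num) ?_
    push_cast
    omega
  have key := two_forms (τ := d.ta (w.1, v)) (σ := d.sg (w.1, v)) (τ' := d.ta (w.2, v'))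
    (σ' := d.sg (w.2, v')) (ta := d.ta w) (sg := d.sg w) (Λ₁ := Λ w.1) (Λ₂ := Λ w.2)
    e1 e2 p1 p2 h1' h2' a1 a2 a3 a4 hη
  have hta : d.ta w ≠ 0 := ta_ne h1 h1'
  exact two_forms_zpow hk₁ hΛ (sc_spec hta).1 hy ho key

end Pool.OC.FN
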